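import Pool.Agent.RL114.StmtsR

/-!
# Project RL114: assembly, every threshold
-/

set_option autoImplicit false

open scoped BigOperators ENNReal
open MeasureTheory Filter Topology

namespace Pool.Agent.RL114.AssemblyR

open Pool.Agent.RL114

theorem final (hDet : TaskDetR) (hSum : TaskSumR) (hTime : TaskTimeR) : AnswerR := by
  intro r ρ hr hρ
  refine ⟨fun p => p⁻¹ ^ (r - 1) * Real.sqrt (Real.log (1 / p)), (hTime r hr).1, ?_⟩
  refine le_antisymm (limsup_le_of_le (h := Eventually.of_forall fun p => prob_le_one)) ?_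
  refine le_of_forall_lt fun c hc => ?_
  obtain ⟨c', hc1, hc2⟩ := exists_between hc
  refine lt_of_lt_of_le hc1 ?_
  refine le_limsup_of_frequently_le ?_
  have hp : Tendsto (fun j : ℕ => ((1 / 2 : ℝ)) ^ (2 ^ j)) atTop (𝓝[>] 0) := by
    refine tendsto_nhdsWithin_iff.2 ⟨?_, Eventually.of_forall fun j => ?_⟩
    · exact (tendsto_pow_atTop_nhds_zero_of_lt_one (by norm_num) (by norm_num)).comp
        (tendsto_pow_atTop_atTop_of_one_lt (by norm_num))
    · exact pow_pos (show (0 : ℝ) < 1 / 2 by norm_num) _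
  refine hp.frequently (Eventually.frequently ?_)
  have hlim : Tendsto (fun j : ℕ => ENNReal.ofReal (1 - 2 ^ (r + 3) / (j : ℝ))) atTop (𝓝 1) := by
    have h1 : Tendsto (fun j : ℕ => 1 - 2 ^ (r + 3) / (j : ℝ)) atTop (𝓝 (1 - 0)) :=
      tendsto_const_nhds.sub (tendsto_const_div_atTop_nhds_zero_nat (2 ^ (r + 3)))
    have h2 := (ENNReal.continuous_ofReal.tendsto (1 - 0 : ℝ)).comp h1
    rw [sub_zero, ENNReal.ofReal_one] at h2
    exact h2
  filter_upwards [(hTime r hr).2, eventually_ge_atTop (2 ^ r), hlim.eventually (lt_mem_nhds hc2)]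
    with j hj h8 hcj
  refine hcj.le.trans ?_
  set P := Pr (ℤ × ℤ) ((1 / 2 : ℝ) ^ (2 ^ j)) with hP
  set N : Set (ℤ × ℤ → Bool) := {ω | (AfR r (j * 2 ^ ((r - 1) * 2 ^ j)) j ω).Nonempty} with hN
  have hsub : N ⊆ {ω | ∃ n : ℕ, (n : ℝ) ≤ ((1 / 2 : ℝ) ^ (2 ^ j))⁻¹ ^ (r - 1) *
      Real.sqrt (Real.log (1 / (1 / 2 : ℝ) ^ (2 ^ j))) ∧ (0, 0) ∈ xi ρ r ω n} := by
    intro ω hω
    refine ⟨r * (j * 2 ^ ((r - 1) * 2 ^ j)) * (j + 3) * (j + 3), ?_, hDet ρ r _ j ω hr hρ ?_ hω⟩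
    · refine le_trans (le_of_eq ?_) hj
      push_cast
      ring
    · have h9 : 0 < 2 ^ r := pow_pos (by norm_num) r
      exact Nat.one_le_iff_ne_zero.2 (Nat.mul_ne_zero (by omega) (pow_ne_zero _ (by norm_num)))
  refine le_trans ?_ (measure_mono hsub)
  have h1 : (1 : ℝ≥0∞) ≤ P N + P Nᶜ := by
    calc (1 : ℝ≥0∞) = P Set.univ := measure_univ.symm
      _ = P (N ∪ Nᶜ) := by rw [Set.union_compl_self]
      _ ≤ _ := measure_union_le _ _
  have h2 : P Nᶜ ≤ ENNReal.ofReal (2 ^ (r + 3) / j) := by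
    have h3 := hSum r j hr h8
    have h4 : P Nᶜ = ENNReal.ofReal (P.real Nᶜ) := by
      rw [Measure.real, ENNReal.ofReal_toReal (measure_ne_top _ _)]
    rw [h4]
    exact ENNReal.ofReal_le_ofReal h3
  have h5 : ENNReal.ofReal (1 - 2 ^ (r + 3) / (j : ℝ)) = 1 - ENNReal.ofReal (2 ^ (r + 3) / j) := by
    rw [ENNReal.ofReal_sub _ (by positivity), ENNReal.ofReal_one]
  rw [h5]
  rw [tsub_le_iff_right]
  exact h1.trans (add_le_add le_rfl h2)

end Pool.Agent.RL114.AssemblyR
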