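import Mathlib

/-!
# Project RL114 (MP_383407_pr): the occupation time in symmetric line growth

Definitions and the statements of the tasks.
-/

set_option autoImplicit false

open scoped BigOperators ENNReal
open MeasureTheory Filter Topology Classical

namespace Pool.Agent.RL114

/-! ### The definitions of the problem -/

/-- The Bernoulli measure with parameter `p` (clamped to `[0, 1]`). -/
noncomputable def ber (p : ℝ) : Measure Bool :=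
  ENNReal.ofReal (max 0 (min p 1)) • Measure.dirac true +
    ENNReal.ofReal (1 - max 0 (min p 1)) • Measure.dirac false

instance (p : ℝ) : IsProbabilityMeasure (ber p) := by
  constructor
  unfold ber
  have h1 : (0 : ℝ) ≤ max 0 (min p 1) := le_max_left _ _
  have h2 : max 0 (min p 1) ≤ (1 : ℝ) := max_le zero_le_one (min_le_right _ _)
  simp only [Measure.coe_add, Measure.coe_smul, Pi.add_apply, Pi.smul_apply, measure_univ,
    smul_eq_mul, mul_one]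
  rw [← ENNReal.ofReal_add h1 (by linarith)]
  norm_num

/-- Independent Bernoulli variables. -/
noncomputable def Pr (ι : Type) (p : ℝ) : Measure (ι → Bool) := Measure.infinitePi fun _ : ι => ber p

instance (ι : Type) (p : ℝ) : IsProbabilityMeasure (Pr ι p) := by unfold Pr; infer_instance

/-- The horizontal arm. -/
def Nh (ρ : ℕ) (x : ℤ × ℤ) : Set (ℤ × ℤ) := {z | z.2 = x.2 ∧ |z.1 - x.1| ≤ ρ}

/-- The vertical arm. -/
def Nv (ρ : ℕ) (x : ℤ × ℤ) : Set (ℤ × ℤ) := {z | z.1 = x.1 ∧ |z.2 - x.2| ≤ ρ}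

/-- Symmetric line growth with radius `ρ` and threshold `r`. -/
def xi (ρ r : ℕ) (ω : ℤ × ℤ → Bool) : ℕ → Set (ℤ × ℤ)
  | 0 => {x | ω x = true}
  | (t + 1) => xi ρ r ω t ∪
      {x | r ≤ (Nh ρ x ∩ xi ρ r ω t).ncard ∨ r ≤ (Nv ρ x ∩ xi ρ r ω t).ncard}

/-! ### The rounds -/

/-- The site with line coordinate `u` and position `v` on a row (`true`) or column (`false`). -/
def site (e : Bool) (u v : ℤ) : ℤ × ℤ := if e then (v, u) else (u, v)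

/-- The direction of the lines of round `m`: rows for `m` even. -/
def dir (m : ℕ) : Bool := m % 2 == 0

/-- The pairs of adjacent lines filled in round `m`. -/
noncomputable def A (L : ℕ) (ω : ℤ × ℤ → Bool) : ℕ → Finset ℕ
  | 0 => (Finset.range L).filter fun i => ∀ b < 2, ∃ s ∈ Finset.range L, ∀ c < 3,
      ω (site true (2 * (i : ℤ) + (b : ℤ)) (3 * (s : ℤ) + (c : ℕ))) = true
  | (m + 1) => (Finset.range L).filter fun i => ∀ b < 2, ∃ s ∈ A L ω m,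
      ω (site (dir (m + 1)) (4 * L * (m + 1) + 2 * (i : ℤ) + (b : ℕ))
        (4 * L * m + 2 * (s : ℤ) + 2)) = true

/-- The triples of adjacent lines filled in the last round. -/
noncomputable def Af (L j : ℕ) (ω : ℤ × ℤ → Bool) : Finset ℕ :=
  (Finset.range L).filter fun i => ∀ b < 3, ∃ s ∈ A L ω j,
    ω (site (dir (j + 1)) (4 * L * (j + 1) + 3 * (i : ℤ) + (b : ℕ))
      (4 * L * j + 2 * (s : ℤ) + 2)) = true

/-- Growth along a line: three consecutive occupied sites spread with speed one. -/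
def TaskGrow : Prop :=
  ∀ (ρ : ℕ) (ω : ℤ × ℤ → Bool) (e : Bool) (u v : ℤ) (s : ℕ), 3 ≤ ρ →
    (∀ c : ℕ, c < 3 → site e u (v + c) ∈ xi ρ 3 ω s) →
    ∀ (n : ℕ) (v' : ℤ), v - n ≤ v' → v' ≤ v + 2 + n → site e u v' ∈ xi ρ 3 ω (s + n)

/-- The deterministic conclusion: with `M = 4 L (j + 3)`, the lines of round `m` are filled on
`[0, M]` at time `(m + 1) M`, and the origin is occupied at time `(j + 3) M`. -/
def TaskDet : Prop :=
  ∀ (ρ L j : ℕ) (ω : ℤ × ℤ → Bool), 3 ≤ ρ → 1 ≤ L → (Af L j ω).Nonempty →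
    ((0 : ℤ), (0 : ℤ)) ∈ xi ρ 3 ω (4 * L * (j + 3) * (j + 3))

/-- Chebyshev for the number of good `i`. -/
def TaskCount : Prop :=
  ∀ (ι : Type) (p : ℝ) (L B C : ℕ) (S : Finset ℕ) (h : ℕ → ℕ → ℕ → ℕ → ι) (κ : ℝ),
    0 ≤ p → p ≤ 1 → 1 ≤ C →
    (∀ i i' b b' s s' c c', i < L → i' < L → b < B → b' < B → s ∈ S → s' ∈ S → c < C → c' < C →
      h i b s c = h i' b' s' c' → i = i' ∧ b = b' ∧ s = s' ∧ c = c') →
    κ ≤ L * (1 - (1 - p ^ C) ^ S.card) ^ B / 2 →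
    (Pr ι p).real {ω | (((Finset.range L).filter fun i => ∀ b < B, ∃ s ∈ S, ∀ c < C,
      ω (h i b s c) = true).card : ℝ) < κ} ≤ 4 / (L * (1 - (1 - p ^ C) ^ S.card) ^ B)

/-- One round, by conditioning on the set `A ω` of the previous round. -/
def TaskRound : Prop :=
  ∀ (ι : Type) (p : ℝ) (L B K : ℕ) (U : Set ι) (A : (ι → Bool) → Finset ℕ)
    (h : ℕ → ℕ → ℕ → ι) (κ : ℝ), 0 ≤ p → p ≤ 1 → U.Finite →
    (∀ ω ω', (∀ u ∈ U, ω u = ω' u) → A ω = A ω') → (∀ ω, A ω ⊆ Finset.range L) →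
    (∀ i i' b b' s s', i < L → i' < L → b < B → b' < B → s < L → s' < L →
      h i b s = h i' b' s' → i = i' ∧ b = b' ∧ s = s') →
    (∀ i b s, i < L → b < B → s < L → h i b s ∉ U) →
    κ ≤ L * (1 - (1 - p) ^ K) ^ B / 2 →
    (Pr ι p).real {ω | (((Finset.range L).filter fun i => ∀ b < B, ∃ s ∈ A ω,
      ω (h i b s) = true).card : ℝ) < κ} ≤
      (Pr ι p).real {ω | (A ω).card < K} + 4 / (L * (1 - (1 - p) ^ K) ^ B)

/-- A bound for the success probability. -/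
def TaskQ : Prop :=
  ∀ (p : ℝ) (K : ℕ), 0 ≤ p → p ≤ 1 → p * K ≤ 1 → p * K / 2 ≤ 1 - (1 - p) ^ K

/-- `A_m` depends only on the box `[0, 4 L (m + 1))²`. -/
def TaskBox : Prop :=
  ∀ (L m : ℕ) (ω ω' : ℤ × ℤ → Bool), 1 ≤ L →
    (∀ u ∈ {z : ℤ × ℤ | 0 ≤ z.1 ∧ 0 ≤ z.2 ∧ z.1 < 4 * L * (m + 1) ∧ z.2 < 4 * L * (m + 1)},
      ω u = ω' u) → A L ω m = A L ω' m

/-- The start. -/
def TaskP0 : Prop :=
  ∀ j : ℕ, 8 ≤ j → (Pr (ℤ × ℤ) ((1 / 2) ^ (2 ^ j))).real {ω | (A (j * 4 ^ (2 ^ j)) ω 0).card < 2} ≤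
    16 / j

/-- One step. -/
def TaskP1 : Prop :=
  ∀ j m : ℕ, 8 ≤ j → m < j →
    (Pr (ℤ × ℤ) ((1 / 2) ^ (2 ^ j))).real
      {ω | (A (j * 4 ^ (2 ^ j)) ω (m + 1)).card < 2 ^ (2 ^ (m + 1))} ≤
    (Pr (ℤ × ℤ) ((1 / 2) ^ (2 ^ j))).real {ω | (A (j * 4 ^ (2 ^ j)) ω m).card < 2 ^ (2 ^ m)} +
      16 / (j * (2 ^ (2 ^ m)) ^ 2)

/-- The last round. -/
def TaskP2 : Prop :=
  ∀ j : ℕ, 8 ≤ j →
    (Pr (ℤ × ℤ) ((1 / 2) ^ (2 ^ j))).real {ω | ¬ (Af (j * 4 ^ (2 ^ j)) j ω).Nonempty} ≤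
    (Pr (ℤ × ℤ) ((1 / 2) ^ (2 ^ j))).real {ω | (A (j * 4 ^ (2 ^ j)) ω j).card < 2 ^ (2 ^ j)} +
      32 / (j * 4 ^ (2 ^ j))

/-- The sum (uses TaskP0, TaskP1, TaskP2). -/
def TaskSum : Prop :=
  ∀ j : ℕ, 8 ≤ j →
    (Pr (ℤ × ℤ) ((1 / 2) ^ (2 ^ j))).real {ω | ¬ (Af (j * 4 ^ (2 ^ j)) j ω).Nonempty} ≤ 64 / j

/-- The time. -/
def TaskTime : Prop :=
  Tendsto (fun p : ℝ => (p⁻¹ ^ 2 * Real.sqrt (Real.log (1 / p))) / (p⁻¹ ^ 2 * Real.log (1 / p)))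
    (𝓝[>] 0) (𝓝 0) ∧
  ∀ᶠ j : ℕ in atTop, (4 * ((j * 4 ^ (2 ^ j) : ℕ) : ℝ) * (j + 3) * (j + 3)) ≤
    (((1 / 2 : ℝ) ^ (2 ^ j))⁻¹ ^ 2 * Real.sqrt (Real.log (1 / (1 / 2 : ℝ) ^ (2 ^ j))))

/-- The answer to the question, for `r = 3` and every `ρ ≥ 3`. -/
def Answer : Prop :=
  ∀ ρ : ℕ, 3 ≤ ρ → ∃ t : ℝ → ℝ,
    Tendsto (fun p : ℝ => t p / (p⁻¹ ^ 2 * Real.log (1 / p))) (𝓝[>] 0) (𝓝 0) ∧
    limsup (fun p : ℝ => Pr (ℤ × ℤ) p {ω | ∃ n : ℕ, (n : ℝ) ≤ t p ∧ (0, 0) ∈ xi ρ 3 ω n})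
      (𝓝[>] 0) = 1

end Pool.Agent.RL114
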