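import Pool.Agent.RL114.Stmts

/-!
# Project RL114, second part: every threshold `r ≥ 3`

The same statements as in `Stmts.lean` with `3` replaced by `r` and `2` by `r - 1`; `TaskCount`,
`TaskRound` and `TaskQ` are used unchanged.
-/

set_option autoImplicit false

open scoped BigOperators ENNReal
open MeasureTheory Filter Topology Classical

namespace Pool.Agent.RL114

/-- The `(r-1)`-tuples of adjacent lines filled in round `m`. -/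
noncomputable def AR (r L : ℕ) (ω : ℤ × ℤ → Bool) : ℕ → Finset ℕ
  | 0 => (Finset.range L).filter fun i => ∀ b < r - 1, ∃ s ∈ Finset.range L, ∀ c < r,
      ω (site true ((r : ℤ) * (i : ℤ) + (b : ℤ)) ((r : ℤ) * (s : ℤ) + (c : ℕ))) = true
  | (m + 1) => (Finset.range L).filter fun i => ∀ b < r - 1, ∃ s ∈ AR r L ω m,
      ω (site (dir (m + 1)) ((r : ℤ) * L * (m + 1) + (r : ℤ) * (i : ℤ) + (b : ℕ))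
        ((r : ℤ) * L * m + (r : ℤ) * (s : ℤ) + ((r : ℤ) - 1))) = true

/-- The `r`-tuples of adjacent lines filled in the last round. -/
noncomputable def AfR (r L j : ℕ) (ω : ℤ × ℤ → Bool) : Finset ℕ :=
  (Finset.range L).filter fun i => ∀ b < r, ∃ s ∈ AR r L ω j,
    ω (site (dir (j + 1)) ((r : ℤ) * L * (j + 1) + (r : ℤ) * (i : ℤ) + (b : ℕ))
      ((r : ℤ) * L * j + (r : ℤ) * (s : ℤ) + ((r : ℤ) - 1))) = true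

def TaskGrowR : Prop :=
  ∀ (ρ r : ℕ) (ω : ℤ × ℤ → Bool) (e : Bool) (u v : ℤ) (s : ℕ), r ≤ ρ →
    (∀ c : ℕ, c < r → site e u (v + c) ∈ xi ρ r ω s) →
    ∀ (n : ℕ) (v' : ℤ), v - n ≤ v' → v' < v + r + n → site e u v' ∈ xi ρ r ω (s + n)

/-- With `M = r L (j + 3)`, the lines of round `m` are filled on `[0, M]` at time `(m + 1) M`. -/
def TaskDetR : Prop :=
  ∀ (ρ r L j : ℕ) (ω : ℤ × ℤ → Bool), 3 ≤ r → r ≤ ρ → 1 ≤ L → (AfR r L j ω).Nonempty →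
    ((0 : ℤ), (0 : ℤ)) ∈ xi ρ r ω (r * L * (j + 3) * (j + 3))

/-- `AR_m` depends only on the box `[0, r L (m + 1))²`. -/
def TaskBoxR : Prop :=
  ∀ (r L m : ℕ) (ω ω' : ℤ × ℤ → Bool), 3 ≤ r → 1 ≤ L →
    (∀ u ∈ {z : ℤ × ℤ | 0 ≤ z.1 ∧ 0 ≤ z.2 ∧ z.1 < (r : ℤ) * L * (m + 1) ∧
      z.2 < (r : ℤ) * L * (m + 1)}, ω u = ω' u) → AR r L ω m = AR r L ω' m

/-- The start: `L = j 2^((r-1) 2^j)`, `p = 2^(-2^j)`. -/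
def TaskP0R : Prop :=
  ∀ r j : ℕ, 3 ≤ r → 2 ^ r ≤ j →
    (Pr (ℤ × ℤ) ((1 / 2) ^ (2 ^ j))).real
      {ω | (AR r (j * 2 ^ ((r - 1) * 2 ^ j)) ω 0).card < 2} ≤ 2 ^ (r + 1) / j

/-- One step. -/
def TaskP1R : Prop :=
  ∀ r j m : ℕ, 3 ≤ r → 2 ^ r ≤ j → m < j →
    (Pr (ℤ × ℤ) ((1 / 2) ^ (2 ^ j))).real
      {ω | (AR r (j * 2 ^ ((r - 1) * 2 ^ j)) ω (m + 1)).card < 2 ^ (2 ^ (m + 1))} ≤
    (Pr (ℤ × ℤ) ((1 / 2) ^ (2 ^ j))).real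
      {ω | (AR r (j * 2 ^ ((r - 1) * 2 ^ j)) ω m).card < 2 ^ (2 ^ m)} +
      2 ^ (r + 1) / (j * (2 ^ (2 ^ m)) ^ 2)

/-- The last round. -/
def TaskP2R : Prop :=
  ∀ r j : ℕ, 3 ≤ r → 2 ^ r ≤ j →
    (Pr (ℤ × ℤ) ((1 / 2) ^ (2 ^ j))).real
      {ω | ¬ (AfR r (j * 2 ^ ((r - 1) * 2 ^ j)) j ω).Nonempty} ≤
    (Pr (ℤ × ℤ) ((1 / 2) ^ (2 ^ j))).real
      {ω | (AR r (j * 2 ^ ((r - 1) * 2 ^ j)) ω j).card < 2 ^ (2 ^ j)} + 2 ^ (r + 2) / j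

/-- The sum. -/
def TaskSumR : Prop :=
  ∀ r j : ℕ, 3 ≤ r → 2 ^ r ≤ j →
    (Pr (ℤ × ℤ) ((1 / 2) ^ (2 ^ j))).real
      {ω | ¬ (AfR r (j * 2 ^ ((r - 1) * 2 ^ j)) j ω).Nonempty} ≤ 2 ^ (r + 3) / j

/-- The time. -/
def TaskTimeR : Prop :=
  ∀ r : ℕ, 3 ≤ r →
  Tendsto (fun p : ℝ => (p⁻¹ ^ (r - 1) * Real.sqrt (Real.log (1 / p))) /
    (p⁻¹ ^ (r - 1) * Real.log (1 / p))) (𝓝[>] 0) (𝓝 0) ∧
  ∀ᶠ j : ℕ in atTop, ((r : ℝ) * ((j * 2 ^ ((r - 1) * 2 ^ j) : ℕ) : ℝ) * (j + 3) * (j + 3)) ≤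
    (((1 / 2 : ℝ) ^ (2 ^ j))⁻¹ ^ (r - 1) * Real.sqrt (Real.log (1 / (1 / 2 : ℝ) ^ (2 ^ j))))

/-- The answer to the question, for every `r ≥ 3` and every `ρ ≥ r`. -/
def AnswerR : Prop :=
  ∀ r ρ : ℕ, 3 ≤ r → r ≤ ρ → ∃ t : ℝ → ℝ,
    Tendsto (fun p : ℝ => t p / (p⁻¹ ^ (r - 1) * Real.log (1 / p))) (𝓝[>] 0) (𝓝 0) ∧
    limsup (fun p : ℝ => Pr (ℤ × ℤ) p {ω | ∃ n : ℕ, (n : ℝ) ≤ t p ∧ (0, 0) ∈ xi ρ r ω n})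
      (𝓝[>] 0) = 1

end Pool.Agent.RL114
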