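import Pool.Agent.RL114.StmtsR

/-! TaskBoxR: `AR_m` depends only on the box. -/

set_option autoImplicit false

namespace Pool.Agent.RL114.TaskBoxR

open Pool.Agent.RL114

theorem site_mem (e : Bool) (u v N : ℤ) (h1 : 0 ≤ u) (h2 : u < N) (h3 : 0 ≤ v) (h4 : v < N) :
    site e u v ∈ {z : ℤ × ℤ | 0 ≤ z.1 ∧ 0 ≤ z.2 ∧ z.1 < N ∧ z.2 < N} := by
  unfold site
  cases e <;> simp [h1, h2, h3, h4]

theorem AR_lt (r L m : ℕ) (ω : ℤ × ℤ → Bool) (i : ℕ) (hi : i ∈ AR r L ω m) : i < L := by
  cases m with
  | zero =>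
    unfold AR at hi
    exact Finset.mem_range.mp (Finset.mem_filter.mp hi).1
  | succ m =>
    unfold AR at hi
    exact Finset.mem_range.mp (Finset.mem_filter.mp hi).1

theorem aux (r L i b : ℕ) (hi : i < L) (hb : b < r) :
    0 ≤ (r : ℤ) * (i : ℤ) + (b : ℤ) ∧ (r : ℤ) * (i : ℤ) + (b : ℤ) < (r : ℤ) * L := by
  have h1 : r * i + b < r * L := by
    have : r * (i + 1) ≤ r * L := Nat.mul_le_mul_left r hi
    have h2 : r * (i + 1) = r * i + r := by ring
    omega
  constructor
  · positivity
  · exact_mod_cast h1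

theorem main : TaskBoxR := by
  intro r L m
  induction m with
  | zero =>
    intro ω ω' hr hL h
    unfold AR
    ext i
    simp only [Finset.mem_filter, Finset.mem_range]
    refine and_congr_right fun hi => ?_
    refine forall_congr' fun b => forall_congr' fun hb => ?_
    refine exists_congr fun s => and_congr_right fun hs => ?_
    refine forall_congr' fun c => forall_congr' fun hc => ?_
    have h1 := aux r L i b hi (by omega)
    have h2 := aux r L s c hs hc
    rw [h]
    apply site_mem
    · exact h1.1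
    · have := h1.2
      push_cast
      linarith
    · exact h2.1
    · have := h2.2
      push_cast
      linarith
  | succ m ih =>
    intro ω ω' hr hL h
    have hN : (r : ℤ) * L * ((m : ℤ) + 1) ≤ (r : ℤ) * L * (((m + 1 : ℕ) : ℤ) + 1) := by
      push_cast
      have : (0 : ℤ) ≤ (r : ℤ) * L := by positivity
      nlinarith
    have hA : AR r L ω m = AR r L ω' m := by
      refine ih ω ω' hr hL ?_
      intro u hu
      exact h u ⟨hu.1, hu.2.1, lt_of_lt_of_le hu.2.2.1 hN, lt_of_lt_of_le hu.2.2.2 hN⟩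
    unfold AR
    ext i
    simp only [Finset.mem_filter, Finset.mem_range]
    rw [hA]
    refine and_congr_right fun hi => ?_
    refine forall_congr' fun b => forall_congr' fun hb => ?_
    refine exists_congr fun s => and_congr_right fun hs => ?_
    have hsL := AR_lt r L m ω' s hs
    have h1 := aux r L i b hi (by omega)
    have h2 := aux r L s (r - 1) hsL (by omega)
    have hr1 : ((r - 1 : ℕ) : ℤ) = (r : ℤ) - 1 := by
      push_cast [Nat.cast_sub (show 1 ≤ r by omega)]
      ring
    rw [hr1] at h2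
    have h0 : (0 : ℤ) ≤ (r : ℤ) * L := by positivity
    have h3 : (0 : ℤ) ≤ (r : ℤ) * L * (m : ℤ) := by positivity
    have e1 : (r : ℤ) * L * (((m + 1 : ℕ) : ℤ) + 1) = (r : ℤ) * L * m + (r : ℤ) * L + (r : ℤ) * L := by
      push_cast
      ring
    have e2 : (r : ℤ) * L * ((m : ℤ) + 1) = (r : ℤ) * L * m + (r : ℤ) * L := by ring
    rw [h]
    apply site_mem
    · rw [e2]; linarith [h1.1]
    · rw [e1, e2]; linarith [h1.2]
    · linarith [h2.1]
    · rw [e1]; linarith [h2.2]

end Pool.Agent.RL114.TaskBoxR
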