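import Mathlib
import Pool.Agent.RL114.Stmts

set_option autoImplicit false

open scoped BigOperators ENNReal
open MeasureTheory Filter Topology Classical ProbabilityTheory

namespace Pool.Agent.RL114.TaskCount

open Pool.Agent.RL114

theorem ber_true {p : ℝ} (h0 : 0 ≤ p) (h1 : p ≤ 1) : (ber p).real {true} = p := by
  unfold ber Measure.real
  simp [min_eq_left h1, max_eq_right h0, h0]

theorem meas_fin {K : Type} [Fintype K] (E : Set (K → Bool)) : MeasurableSet E :=
  (Set.toFinite E).measurableSet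

/-- all blocks in `G` -/
theorem all_blocks {J K : Type} [Fintype J] [Fintype K] (p : ℝ) (G : Set (K → Bool)) :
    (Pr (J × K) p).real {η | ∀ b, (fun k => η (b, k)) ∈ G} =
      ((Pr K p).real G) ^ Fintype.card J := by
  have h := Measure.infinitePi_map_curry (ι := J) (κ := K) (X := Bool) (fun _ _ => ber p)
  have e : {η : J × K → Bool | ∀ b, (fun k => η (b, k)) ∈ G} =
      (MeasurableEquiv.curry J K Bool) ⁻¹' (Set.univ.pi fun _ => G) := by
    ext η
    simp only [Set.mem_setOf_eq, Set.mem_preimage, Set.mem_pi, Set.mem_univ, true_implies]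
    rfl
  rw [e, Measure.real, Measure.real]
  unfold Pr
  rw [← Measure.map_apply (MeasurableEquiv.measurable _)
    (MeasurableSet.univ_pi fun _ => meas_fin G), h, Measure.infinitePi_pi_univ]
  · simp
  · exact fun _ => meas_fin G

/-- all sites occupied -/
theorem all_true {K : Type} [Fintype K] {p : ℝ} (h0 : 0 ≤ p) (h1 : p ≤ 1) :
    (Pr K p).real {η | ∀ k, η k = true} = p ^ Fintype.card K := by
  have e : {η : K → Bool | ∀ k, η k = true} = Set.univ.pi fun _ => {true} := by
    ext η
    simp [Set.mem_pi]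
  rw [e]
  unfold Pr
  rw [Measure.real, Measure.infinitePi_pi_univ]
  · rw [tprod_fintype, ENNReal.toReal_prod]
    have := ber_true h0 h1
    unfold Measure.real at this
    simp [this]
  · exact fun _ => MeasurableSet.singleton _

theorem compl_real {K : Type} [Fintype K] {p : ℝ} (E : Set (K → Bool)) :
    (Pr K p).real Eᶜ = 1 - (Pr K p).real E :=
  probReal_compl_eq_one_sub (meas_fin E)

theorem ev {J T K : Type} [Fintype J] [Fintype T] [Fintype K] {p : ℝ} (h0 : 0 ≤ p) (h1 : p ≤ 1) :
    (Pr (J × T × K) p).real {η | ∀ b, ∃ s, ∀ c, η (b, s, c) = true} =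
      (1 - (1 - p ^ Fintype.card K) ^ Fintype.card T) ^ Fintype.card J := by
  have a := all_blocks (J := J) (K := T × K) p {η | ∃ s, ∀ c, η (s, c) = true}
  have b := all_blocks (J := T) (K := K) p {η | ∀ c, η c = true}ᶜ
  have c : {η : T × K → Bool | ∃ s, ∀ c, η (s, c) = true} =
      {η : T × K → Bool | ∀ b, (fun k => η (b, k)) ∈ {η : K → Bool | ∀ c, η c = true}ᶜ}ᶜ := by
    ext η
    simp
  rw [compl_real, all_true h0 h1] at b
  rw [c, compl_real, b] at a
  rw [← c] at a
  exact a

/-- Chebyshev -/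
theorem cheb {K : Type} [Fintype K] (p : ℝ) (L : ℕ) (E : Set (K → Bool)) (κ : ℝ)
    (hκ : κ ≤ L * (Pr K p).real E / 2) :
    (Measure.pi fun _ : Fin L => Pr K p).real
      {ζ | ∑ i, E.indicator (fun _ => (1 : ℝ)) (ζ i) < κ} ≤ 4 / (L * (Pr K p).real E) := by
  set q := (Pr K p).real E with hq
  have q0 : 0 ≤ q := measureReal_nonneg
  set f : (K → Bool) → ℝ := E.indicator fun _ => (1 : ℝ) with hf
  have fm : Measurable f := measurable_const.indicator (meas_fin E)
  have f01 : ∀ x, f x = 0 ∨ f x = 1 := by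
    intro x
    by_cases h : x ∈ E
    · right; simp [hf, h]
    · left; simp [hf, h]
  have f0 : ∀ x, 0 ≤ f x := fun x => by rcases f01 x with h | h <;> simp [h]
  have f1 : ∀ x, f x ≤ 1 := fun x => by rcases f01 x with h | h <;> simp [h]
  rcases (mul_nonneg (Nat.cast_nonneg (α := ℝ) L) q0).eq_or_lt with hz | hpos
  · have : {ζ : Fin L → K → Bool | ∑ i, f (ζ i) < κ} = ∅ := by
      ext ζ
      simp only [Set.mem_setOf_eq, Set.mem_empty_iff_false, iff_false, not_lt]
      have : κ ≤ 0 := by rw [← hz] at hκ; simpa using hκ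
      exact this.trans (Finset.sum_nonneg fun i _ => f0 _)
    rw [this, ← hz]
    simp
  have hmem : ∀ i : Fin L, MemLp f 2 (Pr K p) := fun _ =>
    MemLp.of_bound fm.aestronglyMeasurable 1 (Eventually.of_forall fun x => by
      rw [Real.norm_eq_abs, abs_of_nonneg (f0 x)]; exact f1 x)
  have hint : ∫ x, f x ∂(Pr K p) = q := by
    rw [hf, integral_indicator_const _ (meas_fin E)]
    simp [hq]
  have hvar : Var[f; Pr K p] ≤ q := by
    have := variance_le_expectation_sq (X := f) (μ := Pr K p) fm.aestronglyMeasurable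
    refine this.trans ?_
    have : ∫ x, (f ^ 2) x ∂(Pr K p) = ∫ x, f x ∂(Pr K p) := by
      refine integral_congr_ae (Eventually.of_forall fun x => ?_)
      rcases f01 x with h | h <;> simp [h]
    rw [this, hint]
  set Q := Measure.pi fun _ : Fin L => Pr K p with hQ
  set X : (Fin L → K → Bool) → ℝ := ∑ i : Fin L, fun ζ => f (ζ i) with hX
  have hvX : Var[X; Q] ≤ L * q := by
    rw [hX, hQ, variance_sum_pi hmem]
    simp only [Finset.sum_const, Finset.card_univ, Fintype.card_fin, nsmul_eq_mul]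
    exact mul_le_mul_of_nonneg_left hvar (Nat.cast_nonneg _)
  have hXm : MemLp X 2 Q := by
    rw [hX]
    refine memLp_finset_sum' _ fun i _ => ?_
    exact MemLp.of_bound (fm.comp (measurable_pi_apply i)).aestronglyMeasurable 1
      (Eventually.of_forall fun x => by
        rw [Real.norm_eq_abs, abs_of_nonneg (f0 _)]; exact f1 _)
  have hEX : ∫ ζ, X ζ ∂Q = L * q := by
    rw [hX]
    simp only [Finset.sum_apply]
    rw [integral_finset_sum]
    · have : ∀ i : Fin L, ∫ ζ : Fin L → K → Bool, f (ζ i) ∂Q = q := by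
        intro i
        rw [← hint, hQ]
        exact integral_comp_eval (μ := fun _ : Fin L => Pr K p) fm.aestronglyMeasurable
      simp [this]
    · intro i _
      exact Integrable.of_bound (fm.comp (measurable_pi_apply i)).aestronglyMeasurable 1
        (Eventually.of_forall fun x => by
          rw [Real.norm_eq_abs, abs_of_nonneg (f0 _)]; exact f1 _)
  have hc : 0 < L * q / 2 := by linarith
  have ch := meas_ge_le_variance_div_sq hXm hc
  have sub : {ζ : Fin L → K → Bool | ∑ i, f (ζ i) < κ} ⊆ {ζ | L * q / 2 ≤ |X ζ - Q[X]|} := by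
    intro ζ hζ
    simp only [Set.mem_setOf_eq] at hζ ⊢
    have e : X ζ = ∑ i, f (ζ i) := by rw [hX]; simp
    have e2 : Q[X] = L * q := hEX
    rw [e2, e, abs_sub_comm]
    refine le_trans ?_ (le_abs_self _)
    linarith
  have : Q {ζ : Fin L → K → Bool | ∑ i, f (ζ i) < κ} ≤ ENNReal.ofReal (4 / (L * q)) := by
    refine (measure_mono sub).trans (ch.trans (ENNReal.ofReal_le_ofReal ?_))
    rw [div_le_div_iff₀ (by positivity) hpos]
    nlinarith
  exact ENNReal.toReal_le_of_le_ofReal (by positivity) this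

theorem main : TaskCount := by
  intro ι p L B C S h κ h0 h1 hC hinj hκ
  set K := Fin B × {x // x ∈ S} × Fin C with hK
  set E : Set (K → Bool) := {η | ∀ b, ∃ s, ∀ c, η (b, s, c) = true} with hE
  have hq : (Pr K p).real E = (1 - (1 - p ^ C) ^ S.card) ^ B := by
    have := ev (J := Fin B) (T := {x // x ∈ S}) (K := Fin C) h0 h1
    simpa [hK, hE] using this
  have ginj : Function.Injective fun x : Fin L × K => h x.1 x.2.1 x.2.2.1 x.2.2.2 := by
    rintro ⟨i, b, s, c⟩ ⟨i', b', s', c'⟩ e
    obtain ⟨e1, e2, e3, e4⟩ := hinj i i' b b' s s' c c' i.2 i'.2 b.2 b'.2 s.2 s'.2 c.2 c'.2 e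
    have a1 : i = i' := Fin.ext e1
    have a2 : b = b' := Fin.ext e2
    have a3 : s = s' := Subtype.ext e3
    have a4 : c = c' := Fin.ext e4
    rw [a1, a2, a3, a4]
  set Ψ : (ι → Bool) → (Fin L → K → Bool) := fun ω i k => ω (h i k.1 k.2.1 k.2.2) with hΨ
  have Ψm : Measurable Ψ := by
    rw [hΨ]
    fun_prop
  have hmap : (Pr ι p).map Ψ = Measure.pi fun _ : Fin L => Pr K p := by
    have a := Measure.map_infinitePi_infinitePi_of_inj (P := fun _ : ι => ber p) ginj
    have b := Measure.infinitePi_map_curry (ι := Fin L) (κ := K) (X := Bool) (fun _ _ => ber p)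
    rw [← Measure.infinitePi_eq_pi]
    unfold Pr
    rw [← b, ← a, Measure.map_map (MeasurableEquiv.measurable _) (by fun_prop)]
    rfl
  have key := cheb p L E κ (by rw [hq]; exact hκ)
  rw [hq, ← hmap, Measure.real, Measure.map_apply Ψm (by
    refine measurableSet_lt ?_ measurable_const
    refine Finset.measurable_sum _ fun i _ => ?_
    exact (measurable_const.indicator (meas_fin E)).comp (measurable_pi_apply i))] at key
  refine le_trans (le_of_eq ?_) key
  rw [Measure.real]
  congr 2
  ext ω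
  simp only [Set.mem_setOf_eq, Set.mem_preimage]
  rw [Finset.card_filter, Finset.sum_range, Nat.cast_sum]
  refine Iff.of_eq (congrArg (· < κ) (Finset.sum_congr rfl fun i _ => ?_))
  have : (∀ b < B, ∃ s ∈ S, ∀ c < C, ω (h i b s c) = true) ↔ Ψ ω i ∈ E := by
    simp only [hE, hΨ, Set.mem_setOf_eq]
    constructor
    · intro H b
      obtain ⟨s, hs, hc⟩ := H b b.2
      exact ⟨⟨s, hs⟩, fun c => hc c c.2⟩
    · intro H b hb
      obtain ⟨s, hc⟩ := H ⟨b, hb⟩
      exact ⟨s, s.2, fun c hc' => hc ⟨c, hc'⟩⟩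
  by_cases hh : Ψ ω i ∈ E
  · rw [Set.indicator_of_mem hh, if_pos (this.2 hh)]; simp
  · rw [Set.indicator_of_notMem hh, if_neg (fun x => hh (this.1 x))]; simp

end Pool.Agent.RL114.TaskCount
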