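import Mathlib
import Pool.Agent.RL114.Stmts

set_option autoImplicit false

open scoped BigOperators ENNReal
open MeasureTheory Filter Topology Classical

namespace Pool.Agent.RL114

theorem det_dir_succ (m : ℕ) : dir (m + 1) = !dir m := by
  unfold dir
  rcases Nat.mod_two_eq_zero_or_one m with h | h
  · have h' : (m + 1) % 2 = 1 := by omega
    rw [h, h']; rfl
  · have h' : (m + 1) % 2 = 0 := by omega
    rw [h, h']; rfl

theorem det_site_not (e : Bool) (u v : ℤ) : site (!e) u v = site e v u := by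
  cases e <;> rfl

theorem det_site_succ (m : ℕ) (u v : ℤ) : site (dir (m + 1)) u v = site (dir m) v u := by
  rw [det_dir_succ, det_site_not]

theorem det_xi_mono (ρ r : ℕ) (ω : ℤ × ℤ → Bool) {s t : ℕ} (h : s ≤ t) :
    xi ρ r ω s ⊆ xi ρ r ω t := by
  induction t, h using Nat.le_induction with
  | base => exact subset_rfl
  | succ t _ ih => exact ih.trans (by rw [xi]; exact Set.subset_union_left)

theorem det_xi_zero (ρ r : ℕ) (ω : ℤ × ℤ → Bool) (t : ℕ) (x : ℤ × ℤ) (h : ω x = true) :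
    x ∈ xi ρ r ω t :=
  det_xi_mono ρ r ω (Nat.zero_le t) (by rw [xi]; exact h)

theorem det_line (hG : TaskGrow) {ρ : ℕ} {ω : ℤ × ℤ → Bool} (hρ : 3 ≤ ρ) (e : Bool) (u v : ℤ)
    (s M : ℕ) (hv0 : 0 ≤ v) (hv : v ≤ M)
    (h : ∀ c : ℕ, c < 3 → site e u (v + c) ∈ xi ρ 3 ω s) (v' : ℤ) (h0 : 0 ≤ v') (h1 : v' ≤ M) :
    site e u v' ∈ xi ρ 3 ω (s + M) :=
  hG ρ ω e u v s hρ h M v' (by linarith) (by linarith)

/-- crossing: two adjacent filled lines and one occupied site beside them -/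
theorem det_cross (hG : TaskGrow) {ρ : ℕ} {ω : ℤ × ℤ → Bool} (hρ : 3 ≤ ρ) (m : ℕ) (u w : ℤ)
    (s M : ℕ) (hu0 : 0 ≤ u) (hu : u ≤ M) (hw0 : 0 ≤ w) (hw : w ≤ M)
    (hl : ∀ b : ℕ, b < 2 → ∀ v' : ℤ, 0 ≤ v' → v' ≤ M → site (dir m) (w + b) v' ∈ xi ρ 3 ω s)
    (ho : ω (site (dir (m + 1)) u (w + 2)) = true) (v' : ℤ) (h0 : 0 ≤ v') (h1 : v' ≤ M) :
    site (dir (m + 1)) u v' ∈ xi ρ 3 ω (s + M) := by
  refine det_line hG hρ _ u w s M hw0 hw ?_ v' h0 h1
  intro c hc
  interval_cases c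
  · rw [det_site_succ]
    exact hl 0 (by norm_num) u hu0 hu
  · rw [det_site_succ]
    exact hl 1 (by norm_num) u hu0 hu
  · exact det_xi_zero _ _ _ _ _ (by exact_mod_cast ho)

theorem det_ind (hG : TaskGrow) {ρ L j : ℕ} {ω : ℤ × ℤ → Bool} (hρ : 3 ≤ ρ) (m : ℕ) (hm : m ≤ j) :
    ∀ i ∈ A L ω m, i < L ∧ ∀ b : ℕ, b < 2 → ∀ v' : ℤ, 0 ≤ v' →
      v' ≤ ((4 * L * (j + 3) : ℕ) : ℤ) →
      site (dir m) (4 * L * m + 2 * (i : ℤ) + b) v' ∈ xi ρ 3 ω ((m + 1) * (4 * L * (j + 3))) := by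
  induction m with
  | zero =>
    intro i hi
    unfold A at hi
    simp only [Finset.mem_filter, Finset.mem_range] at hi
    refine ⟨hi.1, fun b hb v' h0 h1 => ?_⟩
    obtain ⟨s, hs, hc⟩ := hi.2 b (by exact_mod_cast hb)
    have hs' : (s : ℤ) < L := by exact_mod_cast hs
    have hj : (0 : ℤ) ≤ L * j := by positivity
    have key := det_line hG (ω := ω) hρ true (2 * (i : ℤ) + (b : ℤ)) (3 * (s : ℤ)) 0
      (4 * L * (j + 3)) (by positivity) (by push_cast; nlinarith) ?_ v' h0 h1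
    · have e1 : (4 * (L : ℤ) * ((0 : ℕ) : ℤ) + 2 * (i : ℤ) + b) = 2 * (i : ℤ) + (b : ℤ) := by
        push_cast; ring
      have e2 : (0 + 1) * (4 * L * (j + 3)) = 0 + 4 * L * (j + 3) := by ring
      rw [e1, e2]
      exact key
    · intro c hc'
      exact det_xi_zero _ _ _ _ _ (hc c hc')
  | succ m ih =>
    intro i hi
    unfold A at hi
    simp only [Finset.mem_filter, Finset.mem_range] at hi
    refine ⟨hi.1, fun b hb v' h0 h1 => ?_⟩
    obtain ⟨s, hs, ho⟩ := hi.2 b hb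
    obtain ⟨hsL, hl⟩ := ih (by omega) s hs
    have hi' : (i : ℤ) + 1 ≤ L := by exact_mod_cast hi.1
    have hs' : (s : ℤ) + 1 ≤ L := by exact_mod_cast hsL
    have hb' : (b : ℤ) ≤ 1 := by omega
    have hmj : (L : ℤ) * (m + 1) ≤ L * j := by
      have : (m : ℤ) + 1 ≤ j := by exact_mod_cast hm
      exact mul_le_mul_of_nonneg_left this (by positivity)
    have hL0 : (0 : ℤ) ≤ L := by positivity
    have key := det_cross hG (ω := ω) hρ m (4 * L * (m + 1) + 2 * (i : ℤ) + (b : ℕ))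
      (4 * L * m + 2 * (s : ℤ)) ((m + 1) * (4 * L * (j + 3))) (4 * L * (j + 3))
      (by positivity) (by push_cast; linarith) (by positivity) (by push_cast; linarith)
      (fun b' hb' v'' h0'' h1'' => hl b' hb' v'' h0'' h1'') ho v' h0 h1
    have e1 : (4 * (L : ℤ) * ((m + 1 : ℕ) : ℤ) + 2 * (i : ℤ) + b)
        = 4 * L * (m + 1) + 2 * (i : ℤ) + (b : ℕ) := by push_cast; ring
    have e2 : (m + 1 + 1) * (4 * L * (j + 3))
        = (m + 1) * (4 * L * (j + 3)) + 4 * L * (j + 3) := by ring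
    rw [e1, e2]
    exact key

theorem taskDet (hG : TaskGrow) : TaskDet := by
  intro ρ L j ω hρ _ hne
  obtain ⟨i, hi⟩ := hne
  unfold Af at hi
  simp only [Finset.mem_filter, Finset.mem_range] at hi
  have hi' : (i : ℤ) + 1 ≤ L := by exact_mod_cast hi.1
  have hL0 : (0 : ℤ) ≤ L := by positivity
  -- the three lines of the last round
  have h3 : ∀ b : ℕ, b < 3 → ∀ v' : ℤ, 0 ≤ v' → v' ≤ ((4 * L * (j + 3) : ℕ) : ℤ) →
      site (dir (j + 1)) (4 * L * (j + 1) + 3 * (i : ℤ) + b) v' ∈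
        xi ρ 3 ω ((j + 2) * (4 * L * (j + 3))) := by
    intro b hb v' h0 h1
    obtain ⟨s, hs, ho⟩ := hi.2 b hb
    obtain ⟨hsL, hl⟩ := det_ind hG (ω := ω) (j := j) hρ j le_rfl s hs
    have hs' : (s : ℤ) + 1 ≤ L := by exact_mod_cast hsL
    have hb' : (b : ℤ) ≤ 2 := by omega
    have key := det_cross hG (ω := ω) hρ j (4 * L * (j + 1) + 3 * (i : ℤ) + (b : ℕ))
      (4 * L * j + 2 * (s : ℤ)) ((j + 1) * (4 * L * (j + 3))) (4 * L * (j + 3))
      (by positivity) (by push_cast; linarith) (by positivity) (by push_cast; linarith)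
      (fun b' hb' v'' h0'' h1'' => hl b' hb' v'' h0'' h1'') ho v' h0 h1
    have e2 : (j + 2) * (4 * L * (j + 3))
        = (j + 1) * (4 * L * (j + 3)) + 4 * L * (j + 3) := by ring
    rw [e2]
    exact key
  have key := det_line hG (ω := ω) hρ (dir j) 0 (4 * L * (j + 1) + 3 * (i : ℤ))
    ((j + 2) * (4 * L * (j + 3))) (4 * L * (j + 3)) (by positivity) (by push_cast; linarith)
    (fun c hc => by
      rw [← det_site_succ]
      exact h3 c hc 0 le_rfl (by positivity)) 0 le_rfl (by positivity)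
  have e0 : site (dir j) 0 0 = ((0 : ℤ), (0 : ℤ)) := by
    unfold site; split_ifs <;> rfl
  have e2 : 4 * L * (j + 3) * (j + 3) = (j + 2) * (4 * L * (j + 3)) + 4 * L * (j + 3) := by ring
  rw [e2, ← e0]
  exact key

end Pool.Agent.RL114
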