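import Mathlib
import Pool.Agent.RL114.StmtsR
import Pool.Agent.RL114.TaskDet

set_option autoImplicit false

open scoped BigOperators ENNReal
open MeasureTheory Filter Topology Classical

namespace Pool.Agent.RL114.TaskDetR

open Pool.Agent.RL114

theorem line (hG : TaskGrowR) {ρ r : ℕ} {ω : ℤ × ℤ → Bool} (h3 : 3 ≤ r) (hρ : r ≤ ρ) (e : Bool)
    (u v : ℤ) (s M : ℕ) (hv0 : 0 ≤ v) (hv : v ≤ M)
    (h : ∀ c : ℕ, c < r → site e u (v + c) ∈ xi ρ r ω s) (v' : ℤ) (h0 : 0 ≤ v') (h1 : v' ≤ M) :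
    site e u v' ∈ xi ρ r ω (s + M) := by
  have h3' : (3 : ℤ) ≤ r := by exact_mod_cast h3
  exact hG ρ r ω e u v s hρ h M v' (by linarith) (by linarith)

/-- crossing: `r - 1` adjacent filled lines and one occupied site beside them -/
theorem cross (hG : TaskGrowR) {ρ r : ℕ} {ω : ℤ × ℤ → Bool} (h3 : 3 ≤ r) (hρ : r ≤ ρ) (m : ℕ)
    (u w : ℤ) (s M : ℕ) (hu0 : 0 ≤ u) (hu : u ≤ M) (hw0 : 0 ≤ w) (hw : w ≤ M)
    (hl : ∀ b : ℕ, b < r - 1 → ∀ v' : ℤ, 0 ≤ v' → v' ≤ M →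
      site (dir m) (w + b) v' ∈ xi ρ r ω s)
    (ho : ω (site (dir (m + 1)) u (w + ((r : ℤ) - 1))) = true) (v' : ℤ) (h0 : 0 ≤ v')
    (h1 : v' ≤ M) : site (dir (m + 1)) u v' ∈ xi ρ r ω (s + M) := by
  refine line hG h3 hρ _ u w s M hw0 hw ?_ v' h0 h1
  intro c hc
  rcases lt_or_ge c (r - 1) with hlt | hge
  · rw [det_site_succ]
    exact hl c hlt u hu0 hu
  · have e : (c : ℤ) = (r : ℤ) - 1 := by omega
    rw [e]
    exact det_xi_zero _ _ _ _ _ ho

theorem ind (hG : TaskGrowR) {ρ r L j : ℕ} {ω : ℤ × ℤ → Bool} (h3 : 3 ≤ r) (hρ : r ≤ ρ) (m : ℕ)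
    (hm : m ≤ j) :
    ∀ i ∈ AR r L ω m, i < L ∧ ∀ b : ℕ, b < r - 1 → ∀ v' : ℤ, 0 ≤ v' →
      v' ≤ ((r * L * (j + 3) : ℕ) : ℤ) →
      site (dir m) ((r : ℤ) * L * m + (r : ℤ) * (i : ℤ) + b) v' ∈
        xi ρ r ω ((m + 1) * (r * L * (j + 3))) := by
  have hr0 : (0 : ℤ) ≤ r := by positivity
  have hL0 : (0 : ℤ) ≤ L := by positivity
  have hrL : (0 : ℤ) ≤ (r : ℤ) * L := by positivity
  have hrLj : (0 : ℤ) ≤ (r : ℤ) * L * j := by positivity
  induction m with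
  | zero =>
    intro i hi
    unfold AR at hi
    simp only [Finset.mem_filter, Finset.mem_range] at hi
    refine ⟨hi.1, fun b hb v' h0 h1 => ?_⟩
    obtain ⟨s, hs, hc⟩ := hi.2 b hb
    have hs' : (s : ℤ) + 1 ≤ L := by exact_mod_cast hs
    have hrs : (r : ℤ) * (s + 1) ≤ r * L := mul_le_mul_of_nonneg_left hs' hr0
    have key := line hG (ω := ω) h3 hρ true ((r : ℤ) * (i : ℤ) + (b : ℤ)) ((r : ℤ) * (s : ℤ)) 0
      (r * L * (j + 3)) (by positivity) (by push_cast; linarith) ?_ v' h0 h1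
    · have e1 : ((r : ℤ) * (L : ℤ) * ((0 : ℕ) : ℤ) + (r : ℤ) * (i : ℤ) + b)
          = (r : ℤ) * (i : ℤ) + (b : ℤ) := by
        push_cast; ring
      have e2 : (0 + 1) * (r * L * (j + 3)) = 0 + r * L * (j + 3) := by ring
      rw [e1, e2]
      exact key
    · intro c hc'
      exact det_xi_zero _ _ _ _ _ (hc c hc')
  | succ m ih =>
    intro i hi
    unfold AR at hi
    simp only [Finset.mem_filter, Finset.mem_range] at hi
    refine ⟨hi.1, fun b hb v' h0 h1 => ?_⟩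
    obtain ⟨s, hs, ho⟩ := hi.2 b hb
    obtain ⟨hsL, hl⟩ := ih (by omega) s hs
    have hi' : (i : ℤ) + 1 ≤ L := by exact_mod_cast hi.1
    have hs' : (s : ℤ) + 1 ≤ L := by exact_mod_cast hsL
    have hri : (r : ℤ) * (i + 1) ≤ r * L := mul_le_mul_of_nonneg_left hi' hr0
    have hrs : (r : ℤ) * (s + 1) ≤ r * L := mul_le_mul_of_nonneg_left hs' hr0
    have hb' : (b : ℤ) + 1 ≤ r := by omega
    have hmj : (r : ℤ) * L * (m + 1) ≤ r * L * j := by
      have : (m : ℤ) + 1 ≤ j := by exact_mod_cast hm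
      exact mul_le_mul_of_nonneg_left this hrL
    have key := cross hG (ω := ω) h3 hρ m
      ((r : ℤ) * L * (m + 1) + (r : ℤ) * (i : ℤ) + (b : ℕ))
      ((r : ℤ) * L * m + (r : ℤ) * (s : ℤ)) ((m + 1) * (r * L * (j + 3))) (r * L * (j + 3))
      (by positivity) (by push_cast; linarith) (by positivity) (by push_cast; linarith)
      (fun b' hb' v'' h0'' h1'' => hl b' hb' v'' h0'' h1'') ho v' h0 h1
    have e1 : ((r : ℤ) * (L : ℤ) * ((m + 1 : ℕ) : ℤ) + (r : ℤ) * (i : ℤ) + b)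
        = (r : ℤ) * L * (m + 1) + (r : ℤ) * (i : ℤ) + (b : ℕ) := by push_cast; ring
    have e2 : (m + 1 + 1) * (r * L * (j + 3))
        = (m + 1) * (r * L * (j + 3)) + r * L * (j + 3) := by ring
    rw [e1, e2]
    exact key

theorem main (hG : TaskGrowR) : TaskDetR := by
  intro ρ r L j ω h3r hρ _ hne
  obtain ⟨i, hi⟩ := hne
  unfold AfR at hi
  simp only [Finset.mem_filter, Finset.mem_range] at hi
  have hr0 : (0 : ℤ) ≤ r := by positivity
  have hL0 : (0 : ℤ) ≤ L := by positivity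
  have hrL : (0 : ℤ) ≤ (r : ℤ) * L := by positivity
  have hi' : (i : ℤ) + 1 ≤ L := by exact_mod_cast hi.1
  have hri : (r : ℤ) * (i + 1) ≤ r * L := mul_le_mul_of_nonneg_left hi' hr0
  -- the `r` lines of the last round
  have h3 : ∀ b : ℕ, b < r → ∀ v' : ℤ, 0 ≤ v' → v' ≤ ((r * L * (j + 3) : ℕ) : ℤ) →
      site (dir (j + 1)) ((r : ℤ) * L * (j + 1) + (r : ℤ) * (i : ℤ) + b) v' ∈
        xi ρ r ω ((j + 2) * (r * L * (j + 3))) := by
    intro b hb v' h0 h1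
    obtain ⟨s, hs, ho⟩ := hi.2 b hb
    obtain ⟨hsL, hl⟩ := ind hG (ω := ω) (j := j) h3r hρ j le_rfl s hs
    have hs' : (s : ℤ) + 1 ≤ L := by exact_mod_cast hsL
    have hrs : (r : ℤ) * (s + 1) ≤ r * L := mul_le_mul_of_nonneg_left hs' hr0
    have hb' : (b : ℤ) + 1 ≤ r := by omega
    have key := cross hG (ω := ω) h3r hρ j
      ((r : ℤ) * L * (j + 1) + (r : ℤ) * (i : ℤ) + (b : ℕ))
      ((r : ℤ) * L * j + (r : ℤ) * (s : ℤ)) ((j + 1) * (r * L * (j + 3))) (r * L * (j + 3))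
      (by positivity) (by push_cast; linarith) (by positivity) (by push_cast; linarith)
      (fun b' hb' v'' h0'' h1'' => hl b' hb' v'' h0'' h1'') ho v' h0 h1
    have e2 : (j + 2) * (r * L * (j + 3))
        = (j + 1) * (r * L * (j + 3)) + r * L * (j + 3) := by ring
    rw [e2]
    exact key
  have key := line hG (ω := ω) h3r hρ (dir j) 0 ((r : ℤ) * L * (j + 1) + (r : ℤ) * (i : ℤ))
    ((j + 2) * (r * L * (j + 3))) (r * L * (j + 3)) (by positivity) (by push_cast; linarith)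
    (fun c hc => by
      rw [← det_site_succ]
      exact h3 c hc 0 le_rfl (by positivity)) 0 le_rfl (by positivity)
  have e0 : site (dir j) 0 0 = ((0 : ℤ), (0 : ℤ)) := by
    unfold site; split_ifs <;> rfl
  have e2 : r * L * (j + 3) * (j + 3) = (j + 2) * (r * L * (j + 3)) + r * L * (j + 3) := by ring
  rw [e2, ← e0]
  exact key

end Pool.Agent.RL114.TaskDetR
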