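import Pool.Agent.RL114.Stmts

/-! Growth along a line. -/

set_option autoImplicit false

open MeasureTheory Filter Topology Classical

namespace Pool.Agent.RL114

theorem Nh_finite (ρ : ℕ) (x : ℤ × ℤ) : (Nh ρ x).Finite := by
  refine (((Set.finite_Icc (x.1 - ρ) (x.1 + ρ)).prod (Set.finite_singleton x.2))).subset ?_
  rintro z ⟨h1, h2⟩
  rw [abs_le] at h2
  exact ⟨⟨by linarith [h2.1], by linarith [h2.2]⟩, h1⟩

theorem Nv_finite (ρ : ℕ) (x : ℤ × ℤ) : (Nv ρ x).Finite := by
  refine (((Set.finite_singleton x.1).prod (Set.finite_Icc (x.2 - ρ) (x.2 + ρ)))).subset ?_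
  rintro z ⟨h1, h2⟩
  rw [abs_le] at h2
  exact ⟨h1, ⟨by linarith [h2.1], by linarith [h2.2]⟩⟩

/-- a site which sees three occupied sites of its line at distances one, two, three (on one side)
becomes occupied -/
theorem step_site {ρ : ℕ} (hρ : 3 ≤ ρ) (ω : ℤ × ℤ → Bool) (e : Bool) (u w d : ℤ) (t : ℕ)
    (hd : d = 1 ∨ d = -1) (h : ∀ k : ℤ, 1 ≤ k → k ≤ 3 → site e u (w + d * k) ∈ xi ρ 3 ω t) :
    site e u w ∈ xi ρ 3 ω (t + 1) := by
  have hρ' : (3 : ℤ) ≤ ρ := by exact_mod_cast hρ
  have h1 := h 1 (by norm_num) (by norm_num)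
  have h2 := h 2 (by norm_num) (by norm_num)
  have h3 := h 3 (by norm_num) (by norm_num)
  right
  cases e with
  | true =>
    left
    show 3 ≤ (Nh ρ (site true u w) ∩ xi ρ 3 ω t).ncard
    have hf : (Nh ρ (site true u w) ∩ xi ρ 3 ω t).Finite := (Nh_finite ρ _).inter_of_left _
    rw [Nat.succ_le_iff]
    rw [Set.two_lt_ncard_iff hf]
    refine ⟨_, _, _, ⟨?_, h1⟩, ⟨?_, h2⟩, ⟨?_, h3⟩, ?_, ?_, ?_⟩
    · rcases hd with rfl | rfl <;> simp [Nh, site] <;> omega
    · rcases hd with rfl | rfl <;> simp [Nh, site] <;> omega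
    · rcases hd with rfl | rfl <;> simp [Nh, site] <;> omega
    · rcases hd with rfl | rfl <;> simp [site]
    · rcases hd with rfl | rfl <;> simp [site]
    · rcases hd with rfl | rfl <;> simp [site]
  | false =>
    right
    show 3 ≤ (Nv ρ (site false u w) ∩ xi ρ 3 ω t).ncard
    have hf : (Nv ρ (site false u w) ∩ xi ρ 3 ω t).Finite := (Nv_finite ρ _).inter_of_left _
    rw [Nat.succ_le_iff]
    rw [Set.two_lt_ncard_iff hf]
    refine ⟨_, _, _, ⟨?_, h1⟩, ⟨?_, h2⟩, ⟨?_, h3⟩, ?_, ?_, ?_⟩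
    · rcases hd with rfl | rfl <;> simp [Nv, site] <;> omega
    · rcases hd with rfl | rfl <;> simp [Nv, site] <;> omega
    · rcases hd with rfl | rfl <;> simp [Nv, site] <;> omega
    · rcases hd with rfl | rfl <;> simp [site]
    · rcases hd with rfl | rfl <;> simp [site]
    · rcases hd with rfl | rfl <;> simp [site]

theorem taskGrow : TaskGrow := by
  intro ρ ω e u v s hρ h n
  induction n with
  | zero =>
    intro v' h1 h2
    have h1' : v ≤ v' := by simpa using h1
    have h2' : v' ≤ v + 2 := by simpa using h2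
    have h3 := h (v' - v).toNat (by omega)
    have h4 : v + ((v' - v).toNat : ℤ) = v' := by omega
    rw [h4] at h3
    exact h3
  | succ n ih =>
    intro v' h1 h2
    push_cast at h1 h2
    rcases lt_or_ge v' (v - n) with hlt | hge
    · have e1 : v' = v - n - 1 := by omega
      refine step_site hρ ω e u v' 1 (s + n) (Or.inl rfl) fun k hk1 hk2 => ?_
      exact ih _ (by omega) (by omega)
    · rcases lt_or_ge (v + 2 + n) v' with hlt | hle
      · have e1 : v' = v + 3 + n := by omega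
        refine step_site hρ ω e u v' (-1) (s + n) (Or.inr rfl) fun k hk1 hk2 => ?_
        exact ih _ (by omega) (by omega)
      · exact Or.inl (ih v' hge hle)

end Pool.Agent.RL114
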