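import Pool.Agent.RL114.StmtsR
import Pool.Agent.RL114.TaskGrow

/-! Growth along a line, for every threshold `r`. -/

set_option autoImplicit false

open MeasureTheory Filter Topology Classical

namespace Pool.Agent.RL114

/-- a site which sees `r` occupied sites of its line at the distances `1, …, r` (on one side)
becomes occupied -/
theorem step_siteR {ρ r : ℕ} (hρ : r ≤ ρ) (ω : ℤ × ℤ → Bool) (e : Bool) (u w d : ℤ) (t : ℕ)
    (hd : d = 1 ∨ d = -1)
    (h : ∀ k : ℤ, 1 ≤ k → k ≤ r → site e u (w + d * k) ∈ xi ρ r ω t) :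
    site e u w ∈ xi ρ r ω (t + 1) := by
  have hρ' : (r : ℤ) ≤ ρ := by exact_mod_cast hρ
  have hinj : Function.Injective (fun k : ℤ => site e u (w + d * k)) := by
    intro a b hab
    cases e <;> rcases hd with rfl | rfl <;> simp [site] at hab <;> omega
  have hcard : ((fun k : ℤ => site e u (w + d * k)) '' Set.Icc (1 : ℤ) r).ncard = r := by
    rw [Set.ncard_image_of_injective _ hinj, ← Finset.coe_Icc, Set.ncard_coe_finset]
    simp
  right
  cases e with
  | true =>
    left
    show r ≤ (Nh ρ (site true u w) ∩ xi ρ r ω t).ncard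
    have hf : (Nh ρ (site true u w) ∩ xi ρ r ω t).Finite := (Nh_finite ρ _).inter_of_left _
    refine hcard.symm.le.trans (Set.ncard_le_ncard ?_ hf)
    rintro _ ⟨k, ⟨hk1, hk2⟩, rfl⟩
    refine ⟨?_, h k hk1 hk2⟩
    rcases hd with rfl | rfl <;> simp only [Nh, site, Set.mem_ofPred_eq, if_true, abs_le] <;>
      refine ⟨trivial, ?_, ?_⟩ <;> omega
  | false =>
    right
    show r ≤ (Nv ρ (site false u w) ∩ xi ρ r ω t).ncard
    have hf : (Nv ρ (site false u w) ∩ xi ρ r ω t).Finite := (Nv_finite ρ _).inter_of_left _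
    refine hcard.symm.le.trans (Set.ncard_le_ncard ?_ hf)
    rintro _ ⟨k, ⟨hk1, hk2⟩, rfl⟩
    refine ⟨?_, h k hk1 hk2⟩
    rcases hd with rfl | rfl <;> simp only [Nv, site, Set.mem_ofPred_eq, Bool.false_eq_true,
      if_false, abs_le] <;> refine ⟨trivial, ?_, ?_⟩ <;> omega

theorem taskGrowR : TaskGrowR := by
  intro ρ r ω e u v s hρ h n
  induction n with
  | zero =>
    intro v' h1 h2
    have h1' : v ≤ v' := by simpa using h1
    have h2' : v' < v + r := by simpa using h2
    have h3 := h (v' - v).toNat (by omega)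
    have h4 : v + ((v' - v).toNat : ℤ) = v' := by omega
    rw [h4] at h3
    exact h3
  | succ n ih =>
    intro v' h1 h2
    push_cast at h1 h2
    rcases lt_or_ge v' (v - n) with hlt | hge
    · have e1 : v' = v - n - 1 := by omega
      refine step_siteR hρ ω e u v' 1 (s + n) (Or.inl rfl) fun k hk1 hk2 => ?_
      exact ih _ (by omega) (by omega)
    · rcases lt_or_ge v' (v + r + n) with hlt | hle
      · exact Or.inl (ih v' hge hlt)
      · have e1 : v' = v + r + n := by omega
        refine step_siteR hρ ω e u v' (-1) (s + n) (Or.inr rfl) fun k hk1 hk2 => ?_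
        exact ih _ (by omega) (by omega)

theorem TaskGrowR.main : Pool.Agent.RL114.TaskGrowR := taskGrowR

end Pool.Agent.RL114
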