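import Pool.Agent.RL114.StmtsR

/-!
# Project RL114: `TaskP0R`, the first round for every threshold `r ≥ 3`

Adapted from the proof of the case `r = 3` by helper259.
-/

set_option autoImplicit false

open scoped BigOperators ENNReal
open MeasureTheory Filter Topology Classical

namespace Pool.Agent.RL114.TaskP0R

theorem main (hC : TaskCount) (hQ : TaskQ) : Pool.Agent.RL114.TaskP0R := by
  intro r j hr hj
  obtain ⟨k, rfl⟩ : ∃ k, r = k + 1 := ⟨r - 1, by omega⟩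
  have hk : 2 ≤ k := by omega
  simp only [Nat.add_sub_cancel]
  set p : ℝ := (1 / 2) ^ (2 ^ j) with hp
  set L : ℕ := j * 2 ^ (k * 2 ^ j) with hL
  have hp0 : 0 < p := by positivity
  have hp1 : p ≤ 1 := pow_le_one₀ (by norm_num) (by norm_num)
  have hj8 : (8 : ℝ) ≤ j := by
    have h1 : 2 ^ 3 ≤ 2 ^ (k + 1) := Nat.pow_le_pow_right (by norm_num) (by omega)
    have h2 : 8 ≤ j := by omega
    exact_mod_cast h2
  have hjpos : (0 : ℝ) < j := by linarith
  have hLp : (L : ℝ) * p ^ k = j := by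
    rw [hL, hp]
    push_cast
    rw [← pow_mul, mul_comm (2 ^ j) k, mul_assoc, ← mul_pow]
    norm_num
  have hjp : (j : ℝ) * p ≤ 1 := by
    have h1 : j < 2 ^ j := Nat.lt_two_pow_self
    have h2 : 2 ^ j < 2 ^ (2 ^ j) := Nat.lt_two_pow_self
    have h3 : (j : ℝ) ≤ 2 ^ (2 ^ j) := by
      have : j ≤ 2 ^ (2 ^ j) := by omega
      exact_mod_cast this
    calc (j : ℝ) * p ≤ 2 ^ (2 ^ j) * p := mul_le_mul_of_nonneg_right h3 hp0.le
      _ = 1 := by rw [hp, ← mul_pow]; norm_num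
  have hpL : p ^ (k + 1) * L = j * p := by
    rw [← hLp]; ring
  have hq := hQ (p ^ (k + 1)) L (by positivity) (pow_le_one₀ hp0.le hp1) (by rw [hpL]; exact hjp)
  set q : ℝ := 1 - (1 - p ^ (k + 1)) ^ L with hqd
  have hq2 : (j : ℝ) * p / 2 ≤ q := by
    rw [hpL] at hq
    exact hq
  have hjp0 : 0 ≤ (j : ℝ) * p / 2 := by positivity
  have hLq : (j : ℝ) * (j / 2) ^ k ≤ L * q ^ k := by
    have h1 : ((j : ℝ) * p / 2) ^ k ≤ q ^ k := pow_le_pow_left₀ hjp0 hq2 k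
    calc (j : ℝ) * (j / 2) ^ k = L * ((j : ℝ) * p / 2) ^ k := by
          have : (j : ℝ) * p / 2 = p * (j / 2) := by ring
          rw [this, mul_pow, ← mul_assoc, hLp]
      _ ≤ L * q ^ k := mul_le_mul_of_nonneg_left h1 (Nat.cast_nonneg _)
  have hjk : (1 : ℝ) ≤ ((j : ℝ) / 2) ^ k := one_le_pow₀ (by linarith)
  have hLqj : (j : ℝ) ≤ L * q ^ k := by
    refine le_trans ?_ hLq
    nlinarith
  have hinj : ∀ i i' b b' s s' c c' : ℕ, i < L → i' < L → b < k → b' < k → s ∈ Finset.range L →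
      s' ∈ Finset.range L → c < k + 1 → c' < k + 1 →
      site true (((k + 1 : ℕ) : ℤ) * (i : ℤ) + (b : ℕ)) (((k + 1 : ℕ) : ℤ) * (s : ℤ) + (c : ℕ)) =
        site true (((k + 1 : ℕ) : ℤ) * (i' : ℤ) + (b' : ℕ))
          (((k + 1 : ℕ) : ℤ) * (s' : ℤ) + (c' : ℕ)) →
      i = i' ∧ b = b' ∧ s = s' ∧ c = c' := by
    intro i i' b b' s s' c c' _ _ hb hb' _ _ hc hc' h
    simp only [site, if_true, Prod.mk.injEq] at h
    obtain ⟨h1, h2⟩ := h
    have key : ∀ x x' y y' : ℕ, y < k + 1 → y' < k + 1 →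
        ((k + 1 : ℕ) : ℤ) * (x : ℤ) + (y : ℕ) = ((k + 1 : ℕ) : ℤ) * (x' : ℤ) + (y' : ℕ) →
        x = x' ∧ y = y' := by
      intro x x' y y' hy hy' he
      have he' : (k + 1) * x + y = (k + 1) * x' + y' := by exact_mod_cast he
      have hm : ((k + 1) * x + y) % (k + 1) = ((k + 1) * x' + y') % (k + 1) := by rw [he']
      rw [Nat.mul_add_mod, Nat.mul_add_mod, Nat.mod_eq_of_lt hy, Nat.mod_eq_of_lt hy'] at hm
      refine ⟨?_, hm⟩
      subst hm
      have : (k + 1) * x = (k + 1) * x' := by omega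
      exact Nat.eq_of_mul_eq_mul_left (by omega) this
    obtain ⟨e1, e2⟩ := key _ _ _ _ (by omega) (by omega) h2
    obtain ⟨e3, e4⟩ := key _ _ _ _ hc hc' h1
    exact ⟨e1, e2, e3, e4⟩
  have key := hC (ℤ × ℤ) p L k (k + 1) (Finset.range L)
    (fun i b s c => site true (((k + 1 : ℕ) : ℤ) * (i : ℤ) + (b : ℕ))
      (((k + 1 : ℕ) : ℤ) * (s : ℤ) + (c : ℕ))) 2 hp0.le hp1
    (by omega) hinj (by
      rw [Finset.card_range, ← hqd]
      linarith)
  rw [Finset.card_range, ← hqd] at key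
  have hset : {ω : ℤ × ℤ → Bool | (AR (k + 1) L ω 0).card < 2} =
      {ω | (((Finset.range L).filter fun i =>
      ∀ b < k, ∃ s ∈ Finset.range L, ∀ c < k + 1,
      ω (site true (((k + 1 : ℕ) : ℤ) * (i : ℤ) + (b : ℕ))
        (((k + 1 : ℕ) : ℤ) * (s : ℤ) + (c : ℕ))) = true).card : ℝ) < 2} := by
    ext ω
    simp only [Set.mem_ofPred_eq, AR, Nat.add_sub_cancel]
    exact_mod_cast Iff.rfl
  rw [hset]
  refine key.trans ?_
  have hLq0 : 0 < (L : ℝ) * q ^ k := lt_of_lt_of_le hjpos hLqj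
  have h4 : (4 : ℝ) ≤ 2 ^ (k + 1 + 1) := by
    have : (2 : ℝ) ^ 2 ≤ 2 ^ (k + 1 + 1) := pow_le_pow_right₀ (by norm_num) (by omega)
    linarith
  rw [div_le_div_iff₀ hLq0 hjpos]
  calc (4 : ℝ) * j ≤ 2 ^ (k + 1 + 1) * j := mul_le_mul_of_nonneg_right h4 hjpos.le
    _ ≤ 2 ^ (k + 1 + 1) * (L * q ^ k) := mul_le_mul_of_nonneg_left hLqj (by positivity)

end Pool.Agent.RL114.TaskP0R
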