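import Pool.Agent.RL114.Stmts

/-!
# RL114: one step (TaskP1)
-/

set_option autoImplicit false

open scoped BigOperators ENNReal
open MeasureTheory Filter Topology Classical

namespace Pool.Agent.RL114

private theorem site_inj (e : Bool) (u v u' v' : ℤ) (h : site e u v = site e u' v') :
    u = u' ∧ v = v' := by
  unfold site at h
  split_ifs at h
  · rw [Prod.mk.injEq] at h
    exact ⟨h.2, h.1⟩
  · rw [Prod.mk.injEq] at h
    exact h

private theorem A_subset (L : ℕ) (ω : ℤ × ℤ → Bool) (m : ℕ) : A L ω m ⊆ Finset.range L := by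
  intro x hx
  cases m with
  | zero => simp only [A, Finset.mem_filter] at hx; exact hx.1
  | succ m => simp only [A, Finset.mem_filter] at hx; exact hx.1

private theorem box_finite (N : ℤ) :
    {z : ℤ × ℤ | 0 ≤ z.1 ∧ 0 ≤ z.2 ∧ z.1 < N ∧ z.2 < N}.Finite := by
  refine ((Set.finite_Ico (0 : ℤ) N).prod (Set.finite_Ico (0 : ℤ) N)).subset ?_
  rintro ⟨a, b⟩ ⟨h1, h2, h3, h4⟩
  exact ⟨⟨h1, h3⟩, ⟨h2, h4⟩⟩

private theorem Lp2 (j : ℕ) :
    ((j * 4 ^ (2 ^ j) : ℕ) : ℝ) * (((1 : ℝ) / 2) ^ (2 ^ j)) ^ 2 = j := by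
  push_cast
  have h : (4 : ℝ) ^ (2 ^ j) * (((1 : ℝ) / 2) ^ (2 ^ j)) ^ 2 = 1 := by
    rw [← pow_mul, mul_comm (2 ^ j) 2, pow_mul, ← mul_pow]
    norm_num
  rw [mul_assoc, h, mul_one]

theorem taskP1 (hR : TaskRound) (hQ : TaskQ) (hB : TaskBox) : TaskP1 := by
  intro j m hj hm
  have hp0 : (0 : ℝ) ≤ (1 / 2 : ℝ) ^ (2 ^ j) := by positivity
  have hp1 : ((1 : ℝ) / 2) ^ (2 ^ j) ≤ 1 := pow_le_one₀ (by norm_num) (by norm_num)
  set p : ℝ := (1 / 2 : ℝ) ^ (2 ^ j) with hp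
  set L : ℕ := j * 4 ^ (2 ^ j) with hL
  have hL1 : 1 ≤ L := by
    rw [hL]
    exact Nat.one_le_iff_ne_zero.2 (Nat.mul_ne_zero (by omega) (by positivity))
  have hLp : (L : ℝ) * p ^ 2 = j := Lp2 j
  have hpK : p * ((2 ^ (2 ^ m) : ℕ) : ℝ) ≤ 1 := by
    push_cast
    calc p * (2 : ℝ) ^ (2 ^ m) ≤ p * (2 : ℝ) ^ (2 ^ j) := by
          apply mul_le_mul_of_nonneg_left _ hp0
          exact pow_le_pow_right₀ (by norm_num) (Nat.pow_le_pow_right (by norm_num) hm.le)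
      _ = 1 := by
          rw [hp, ← mul_pow]; norm_num
  have hq := hQ p (2 ^ (2 ^ m)) hp0 hp1 hpK
  set q : ℝ := 1 - (1 - p) ^ (2 ^ (2 ^ m)) with hqdef
  have hK0 : (0 : ℝ) < (2 : ℝ) ^ (2 ^ m) := by positivity
  have hppos : 0 < p := by rw [hp]; positivity
  have hq0 : 0 < p * ((2 ^ (2 ^ m) : ℕ) : ℝ) / 2 := by
    push_cast; positivity
  have hj8 : (8 : ℝ) ≤ j := by exact_mod_cast hj
  have hLq : (j : ℝ) * ((2 : ℝ) ^ (2 ^ m)) ^ 2 / 4 ≤ L * q ^ 2 := by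
    have h1 : (p * ((2 ^ (2 ^ m) : ℕ) : ℝ) / 2) ^ 2 ≤ q ^ 2 := pow_le_pow_left₀ hq0.le hq 2
    have h2 : (L : ℝ) * (p * ((2 ^ (2 ^ m) : ℕ) : ℝ) / 2) ^ 2 ≤ L * q ^ 2 :=
      mul_le_mul_of_nonneg_left h1 (Nat.cast_nonneg _)
    refine le_trans (le_of_eq ?_) h2
    push_cast
    rw [← hLp]
    ring
  have hκ : ((2 : ℝ) ^ (2 ^ (m + 1))) ≤ L * q ^ 2 / 2 := by
    have h3 : ((2 : ℝ) ^ (2 ^ (m + 1))) = ((2 : ℝ) ^ (2 ^ m)) ^ 2 := by
      rw [← pow_mul, pow_succ 2 m]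
    rw [h3]
    have h4 : 0 < ((2 : ℝ) ^ (2 ^ m)) ^ 2 := by positivity
    nlinarith
  have key := hR (ℤ × ℤ) p L 2 (2 ^ (2 ^ m))
    {z : ℤ × ℤ | 0 ≤ z.1 ∧ 0 ≤ z.2 ∧ z.1 < 4 * L * (m + 1) ∧ z.2 < 4 * L * (m + 1)}
    (fun ω => A L ω m)
    (fun i b s => site (dir (m + 1)) (4 * L * (m + 1) + 2 * (i : ℤ) + (b : ℕ))
        (4 * L * m + 2 * (s : ℤ) + 2)) ((2 : ℝ) ^ (2 ^ (m + 1))) hp0 hp1 (box_finite _)
    (fun ω ω' h => hB L m ω ω' hL1 h) (fun ω => A_subset L ω m)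
    (by
      intro i i' b b' s s' hi hi' hb hb' hs hs' h
      obtain ⟨h1, h2⟩ := site_inj _ _ _ _ _ h
      refine ⟨by omega, by omega, by omega⟩)
    (by
      intro i b s hi hb hs h
      rw [Set.mem_ofPred_eq] at h
      unfold site at h
      split_ifs at h
      · have := h.2.2.2
        simp only at this
        omega
      · have := h.2.2.1
        simp only at this
        omega)
    hκ
  refine le_trans (le_of_eq ?_) (key.trans ?_)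
  · congr 1
    ext ω
    simp only [Set.mem_ofPred_eq]
    rw [← Nat.cast_lt (α := ℝ)]
    push_cast
    have e2 : A L ω (m + 1) = (Finset.range L).filter (fun i : ℕ => ∀ b < 2, ∃ s ∈ A L ω m,
        ω (site (dir (m + 1)) (4 * L * (m + 1) + 2 * (i : ℤ) + (b : ℕ))
        (4 * L * m + 2 * (s : ℤ) + 2)) = true) := by
      ext i
      simp only [A, Finset.mem_filter]
    rw [e2]
    apply iff_of_eq
    congr!
  gcongr ?_ + ?_
  · rfl
  · have h5 : 0 < (j : ℝ) * ((2 : ℝ) ^ (2 ^ m)) ^ 2 / 4 := by positivity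
    calc (4 : ℝ) / (L * q ^ 2) ≤ 4 / ((j : ℝ) * ((2 : ℝ) ^ (2 ^ m)) ^ 2 / 4) := by
          apply div_le_div_of_nonneg_left (by norm_num) h5 hLq
      _ = 16 / ((j : ℝ) * ((2 : ℝ) ^ (2 ^ m)) ^ 2) := by
          field_simp
          norm_num

theorem TaskP1.main (hR : TaskRound) (hQ : TaskQ) (hB : TaskBox) : Pool.Agent.RL114.TaskP1 :=
  taskP1 hR hQ hB

end Pool.Agent.RL114
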