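import Pool.Agent.RL114.StmtsR

/-!
# RL114: one step, every threshold (TaskP1R), after the proof of TaskP1
-/

set_option autoImplicit false

open scoped BigOperators ENNReal
open MeasureTheory Filter Topology Classical

namespace Pool.Agent.RL114

private theorem site_injR (e : Bool) (u v u' v' : ℤ) (h : site e u v = site e u' v') :
    u = u' ∧ v = v' := by
  unfold site at h
  split_ifs at h
  · rw [Prod.mk.injEq] at h
    exact ⟨h.2, h.1⟩
  · rw [Prod.mk.injEq] at h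
    exact h

private theorem AR_subset' (r L : ℕ) (ω : ℤ × ℤ → Bool) (m : ℕ) :
    AR r L ω m ⊆ Finset.range L := by
  intro x hx
  cases m with
  | zero => simp only [AR, Finset.mem_filter] at hx; exact hx.1
  | succ m => simp only [AR, Finset.mem_filter] at hx; exact hx.1

private theorem box_finiteR (N : ℤ) :
    {z : ℤ × ℤ | 0 ≤ z.1 ∧ 0 ≤ z.2 ∧ z.1 < N ∧ z.2 < N}.Finite := by
  refine ((Set.finite_Ico (0 : ℤ) N).prod (Set.finite_Ico (0 : ℤ) N)).subset ?_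
  rintro ⟨a, b⟩ ⟨h1, h2, h3, h4⟩
  exact ⟨⟨h1, h3⟩, ⟨h2, h4⟩⟩

private theorem LpR (r j : ℕ) :
    ((j * 2 ^ ((r - 1) * 2 ^ j) : ℕ) : ℝ) * (((1 : ℝ) / 2) ^ (2 ^ j)) ^ (r - 1) = j := by
  push_cast
  have h : (2 : ℝ) ^ ((r - 1) * 2 ^ j) * (((1 : ℝ) / 2) ^ (2 ^ j)) ^ (r - 1) = 1 := by
    rw [← pow_mul, mul_comm (2 ^ j) (r - 1), ← mul_pow]
    norm_num
  rw [mul_assoc, h, mul_one]

private theorem euclid_uniq {r i i' b b' : ℕ} (hb : b < r) (hb' : b' < r)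
    (h : (r : ℤ) * i + b = (r : ℤ) * i' + b') : i = i' ∧ b = b' := by
  have h' : r * i + b = r * i' + b' := by exact_mod_cast h
  have hr : 0 < r := by omega
  have h1 : (r * i + b) / r = i := by
    rw [Nat.mul_add_div hr, Nat.div_eq_of_lt hb, add_zero]
  have h2 : (r * i' + b') / r = i' := by
    rw [Nat.mul_add_div hr, Nat.div_eq_of_lt hb', add_zero]
  have hi : i = i' := by rw [← h1, h', h2]
  subst hi
  exact ⟨rfl, by omega⟩

theorem taskP1R (hR : TaskRound) (hQ : TaskQ) (hB : TaskBoxR) : TaskP1R := by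
  intro r j m hr hj hm
  have h8r : 8 ≤ 2 ^ r := by
    calc 8 = 2 ^ 3 := by norm_num
      _ ≤ 2 ^ r := Nat.pow_le_pow_right (by norm_num) hr
  have hj8 : 8 ≤ j := h8r.trans hj
  have hp0 : (0 : ℝ) ≤ (1 / 2 : ℝ) ^ (2 ^ j) := by positivity
  have hp1 : ((1 : ℝ) / 2) ^ (2 ^ j) ≤ 1 := pow_le_one₀ (by norm_num) (by norm_num)
  set p : ℝ := (1 / 2 : ℝ) ^ (2 ^ j) with hp
  set L : ℕ := j * 2 ^ ((r - 1) * 2 ^ j) with hL
  have hL1 : 1 ≤ L := by
    rw [hL]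
    exact Nat.one_le_iff_ne_zero.2 (Nat.mul_ne_zero (by omega) (by positivity))
  have hLp : (L : ℝ) * p ^ (r - 1) = j := LpR r j
  have hpK : p * ((2 ^ (2 ^ m) : ℕ) : ℝ) ≤ 1 := by
    push_cast
    calc p * (2 : ℝ) ^ (2 ^ m) ≤ p * (2 : ℝ) ^ (2 ^ j) := by
          apply mul_le_mul_of_nonneg_left _ hp0
          exact pow_le_pow_right₀ (by norm_num) (Nat.pow_le_pow_right (by norm_num) hm.le)
      _ = 1 := by
          rw [hp, ← mul_pow]; norm_num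
  have hq := hQ p (2 ^ (2 ^ m)) hp0 hp1 hpK
  set q : ℝ := 1 - (1 - p) ^ (2 ^ (2 ^ m)) with hqdef
  set K : ℝ := (2 : ℝ) ^ (2 ^ m) with hKdef
  have hK1 : (1 : ℝ) ≤ K := one_le_pow₀ (by norm_num)
  have hppos : 0 < p := by rw [hp]; positivity
  have hq0 : 0 < p * ((2 ^ (2 ^ m) : ℕ) : ℝ) / 2 := by
    push_cast; positivity
  have hjr : (2 : ℝ) ^ r ≤ j := by exact_mod_cast hj
  have hj0 : (0 : ℝ) < j := by
    have : (0 : ℝ) < (2 : ℝ) ^ r := by positivity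
    linarith
  have h2r : (2 : ℝ) ^ r = 2 * 2 ^ (r - 1) := by
    rw [← pow_succ']; congr 1; omega
  have hKK : K ^ 2 ≤ K ^ (r - 1) := pow_le_pow_right₀ hK1 (by omega)
  have hLq : (j : ℝ) * K ^ 2 / 2 ^ (r - 1) ≤ L * q ^ (r - 1) := by
    have h1 : (p * ((2 ^ (2 ^ m) : ℕ) : ℝ) / 2) ^ (r - 1) ≤ q ^ (r - 1) :=
      pow_le_pow_left₀ hq0.le hq _
    have h2 : (L : ℝ) * (p * ((2 ^ (2 ^ m) : ℕ) : ℝ) / 2) ^ (r - 1) ≤ L * q ^ (r - 1) :=
      mul_le_mul_of_nonneg_left h1 (Nat.cast_nonneg _)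
    refine le_trans ?_ h2
    have e : (L : ℝ) * (p * ((2 ^ (2 ^ m) : ℕ) : ℝ) / 2) ^ (r - 1) =
        (j : ℝ) * K ^ (r - 1) / 2 ^ (r - 1) := by
      rw [div_pow, mul_pow, ← hLp]
      push_cast
      ring
    rw [e]
    gcongr
  have hκ : ((2 : ℝ) ^ (2 ^ (m + 1))) ≤ L * q ^ (r - 1) / 2 := by
    have h3 : ((2 : ℝ) ^ (2 ^ (m + 1))) = K ^ 2 := by
      rw [hKdef, ← pow_mul, pow_succ 2 m]
    rw [h3]
    have h4 : 2 * K ^ 2 ≤ (j : ℝ) * K ^ 2 / 2 ^ (r - 1) := by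
      rw [le_div_iff₀ (by positivity)]
      have h5 : 0 < K ^ 2 := by positivity
      have h6 : 2 * (2 : ℝ) ^ (r - 1) ≤ j := by rw [← h2r]; exact hjr
      nlinarith
    linarith
  have key := hR (ℤ × ℤ) p L (r - 1) (2 ^ (2 ^ m))
    {z : ℤ × ℤ | 0 ≤ z.1 ∧ 0 ≤ z.2 ∧ z.1 < (r : ℤ) * L * (m + 1) ∧ z.2 < (r : ℤ) * L * (m + 1)}
    (fun ω => AR r L ω m)
    (fun i b s => site (dir (m + 1)) ((r : ℤ) * L * (m + 1) + (r : ℤ) * (i : ℤ) + (b : ℕ))
        ((r : ℤ) * L * m + (r : ℤ) * (s : ℤ) + ((r : ℤ) - 1)))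
    ((2 : ℝ) ^ (2 ^ (m + 1))) hp0 hp1 (box_finiteR _)
    (fun ω ω' h => hB r L m ω ω' hr hL1 h) (fun ω => AR_subset' r L ω m)
    (by
      intro i i' b b' s s' hi hi' hb hb' hs hs' h
      obtain ⟨h1, h2⟩ := site_injR _ _ _ _ _ h
      have h1' : (r : ℤ) * i + b = (r : ℤ) * i' + b' := by linarith
      have h2' : (r : ℤ) * s + (0 : ℕ) = (r : ℤ) * s' + (0 : ℕ) := by push_cast; linarith
      obtain ⟨e1, e2⟩ := euclid_uniq (by omega) (by omega) h1'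
      obtain ⟨e3, _⟩ := euclid_uniq (by omega) (by omega) h2'
      exact ⟨e1, e2, e3⟩)
    (by
      intro i b s hi hb hs h
      rw [Set.mem_ofPred_eq] at h
      have hpos : (0 : ℤ) ≤ (r : ℤ) * (i : ℤ) + (b : ℕ) := by positivity
      unfold site at h
      split_ifs at h
      · have := h.2.2.2
        simp only at this
        linarith
      · have := h.2.2.1
        simp only at this
        linarith)
    hκ
  refine le_trans (le_of_eq ?_) (key.trans ?_)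
  · congr 1
    ext ω
    simp only [Set.mem_ofPred_eq]
    rw [← Nat.cast_lt (α := ℝ)]
    push_cast
    have e2 : AR r L ω (m + 1) = (Finset.range L).filter (fun i : ℕ => ∀ b < r - 1,
        ∃ s ∈ AR r L ω m,
        ω (site (dir (m + 1)) ((r : ℤ) * L * (m + 1) + (r : ℤ) * (i : ℤ) + (b : ℕ))
        ((r : ℤ) * L * m + (r : ℤ) * (s : ℤ) + ((r : ℤ) - 1))) = true) := by
      ext i
      simp only [AR, Finset.mem_filter]
    rw [e2]
  gcongr ?_ + ?_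
  · rfl
  · have h5 : 0 < (j : ℝ) * K ^ 2 / 2 ^ (r - 1) := by positivity
    calc (4 : ℝ) / (L * q ^ (r - 1)) ≤ 4 / ((j : ℝ) * K ^ 2 / 2 ^ (r - 1)) := by
          apply div_le_div_of_nonneg_left (by norm_num) h5 hLq
      _ = 2 ^ (r + 1) / ((j : ℝ) * K ^ 2) := by
          have e : (2 : ℝ) ^ (r + 1) = 4 * 2 ^ (r - 1) := by
            rw [pow_succ, h2r]; ring
          rw [e]
          field_simp

theorem TaskP1R.main (hR : TaskRound) (hQ : TaskQ) (hB : TaskBoxR) :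
    Pool.Agent.RL114.TaskP1R := taskP1R hR hQ hB

end Pool.Agent.RL114
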