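import Pool.Agent.RL114.Stmts

/-!
# MP_383407_pr, task `TaskP2`: the last round
-/

set_option autoImplicit false

open scoped BigOperators ENNReal
open MeasureTheory Filter Topology Classical

namespace Pool.Agent.RL114.TaskP2

theorem site_inj {e : Bool} {u v u' v' : ℤ} (h : site e u v = site e u' v') :
    u = u' ∧ v = v' := by
  unfold site at h
  cases e
  · simpa using h
  · have h' : v = v' ∧ u = u' := by simpa using h
    exact ⟨h'.2, h'.1⟩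

theorem A_subset (L m : ℕ) (ω : ℤ × ℤ → Bool) : A L ω m ⊆ Finset.range L := by
  cases m with
  | zero => unfold A; apply Finset.filter_subset
  | succ m => unfold A; exact @Finset.filter_subset ℕ _ (_) _

theorem box_finite (N : ℤ) :
    {z : ℤ × ℤ | 0 ≤ z.1 ∧ 0 ≤ z.2 ∧ z.1 < N ∧ z.2 < N}.Finite := by
  refine ((Set.finite_Icc (0 : ℤ) N).prod (Set.finite_Icc (0 : ℤ) N)).subset ?_
  rintro ⟨a, b⟩ ⟨h1, h2, h3, h4⟩
  simp only [Set.mem_prod, Set.mem_Icc] at *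
  omega

theorem site_notMem {e : Bool} {u v N : ℤ} (h : N ≤ u) :
    site e u v ∉ {z : ℤ × ℤ | 0 ≤ z.1 ∧ 0 ≤ z.2 ∧ z.1 < N ∧ z.2 < N} := by
  rintro ⟨h1, h2, h3, h4⟩
  unfold site at h1 h2 h3 h4
  cases e <;> simp at h1 h2 h3 h4 <;> omega

theorem main (hR : TaskRound) (hQ : TaskQ) (hB : TaskBox) : Pool.Agent.RL114.TaskP2 := by
  intro j hj
  have hj0 : 1 ≤ j := by omega
  obtain ⟨L, hL⟩ : ∃ L : ℕ, L = j * 4 ^ (2 ^ j) := ⟨_, rfl⟩
  obtain ⟨p, hp⟩ : ∃ p : ℝ, p = (1 / 2) ^ (2 ^ j) := ⟨_, rfl⟩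
  rw [← hL, ← hp]
  have hp0 : 0 ≤ p := by rw [hp]; positivity
  have hp1 : p ≤ 1 := by rw [hp]; exact pow_le_one₀ (by norm_num) (by norm_num)
  have hLR : (L : ℝ) = (j : ℝ) * 4 ^ (2 ^ j) := by rw [hL]; push_cast; ring
  have hjR : (8 : ℝ) ≤ j := by exact_mod_cast hj
  have h4 : (4 : ℝ) ≤ 4 ^ (2 ^ j) := by
    calc (4 : ℝ) = 4 ^ 1 := by norm_num
      _ ≤ 4 ^ (2 ^ j) := pow_le_pow_right₀ (by norm_num) Nat.one_le_two_pow
  have hL32 : (32 : ℝ) ≤ L := by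
    rw [hLR]
    nlinarith
  have hL1 : 1 ≤ L := by
    have : (1 : ℝ) ≤ L := by linarith
    exact_mod_cast this
  obtain ⟨q, hq⟩ : ∃ q : ℝ, q = 1 - (1 - p) ^ (2 ^ (2 ^ j)) := ⟨_, rfl⟩
  have hpK : p * ((2 ^ (2 ^ j) : ℕ) : ℝ) = 1 := by
    rw [hp]
    push_cast
    rw [← mul_pow]
    norm_num
  have hqh : 1 / 2 ≤ q := by
    have := hQ p (2 ^ (2 ^ j)) hp0 hp1 hpK.le
    rw [hpK] at this
    rw [hq]
    exact this
  have hq3 : (1 / 8 : ℝ) ≤ q ^ 3 := by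
    calc (1 / 8 : ℝ) = (1 / 2) ^ 3 := by norm_num
      _ ≤ q ^ 3 := pow_le_pow_left₀ (by norm_num) hqh 3
  have hLq : (L : ℝ) / 8 ≤ L * q ^ 3 := by nlinarith
  have key := hR (ℤ × ℤ) p L 3 (2 ^ (2 ^ j))
    {z : ℤ × ℤ | 0 ≤ z.1 ∧ 0 ≤ z.2 ∧ z.1 < 4 * L * (j + 1) ∧ z.2 < 4 * L * (j + 1)}
    (fun ω => A L ω j)
    (fun i b s => site (dir (j + 1)) (4 * L * (j + 1) + 3 * (i : ℤ) + (b : ℕ))
      (4 * L * j + 2 * (s : ℤ) + 2)) 1 hp0 hp1 (box_finite _)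
    (fun ω ω' h => hB L j ω ω' hL1 h) (fun ω => A_subset L j ω)
    (by
      intro i i' b b' s s' hi hi' hb hb' hs hs' h
      obtain ⟨h1, h2⟩ := site_inj h
      have h3 : 3 * (i : ℤ) + b = 3 * (i' : ℤ) + b' := by linarith
      have h4 : (s : ℤ) = s' := by linarith
      refine ⟨?_, ?_, ?_⟩ <;> omega)
    (by
      intro i b s hi hb hs
      refine site_notMem ?_
      have h1 : (0 : ℤ) ≤ i := Int.natCast_nonneg _
      have h2 : (0 : ℤ) ≤ b := Int.natCast_nonneg _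
      linarith)
    (by
      rw [← hq]
      linarith)
  rw [← hq] at key
  have hset : {ω : ℤ × ℤ → Bool | ¬ (Af L j ω).Nonempty} =
      {ω | ((Af L j ω).card : ℝ) < 1} := by
    ext ω
    simp only [Set.mem_ofPred_eq, Finset.not_nonempty_iff_eq_empty]
    constructor
    · intro h
      rw [h]
      simp
    · intro h
      have h2 : (Af L j ω).card < 1 := by exact_mod_cast h
      rw [← Finset.card_eq_zero]
      omega
  rw [hset]
  have key' : (Pr (ℤ × ℤ) p).real {ω | ((Af L j ω).card : ℝ) < 1} ≤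
      (Pr (ℤ × ℤ) p).real {ω | (A L ω j).card < 2 ^ 2 ^ j} + 4 / (L * q ^ 3) := by
    unfold Af
    convert key
  refine key'.trans ?_
  have hfin : 4 / ((L : ℝ) * q ^ 3) ≤ 32 / (j * 4 ^ (2 ^ j)) := by
    rw [← hLR]
    rw [div_le_div_iff₀ (by nlinarith) (by linarith)]
    nlinarith
  exact add_le_add le_rfl hfin

end Pool.Agent.RL114.TaskP2
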