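import Pool.Agent.RL114.StmtsR

/-!
# MP_383407_pr, task `TaskP2R`: the last round, every threshold `r ≥ 3`
(adapted from `TaskP2` of helper132)
-/

set_option autoImplicit false

open scoped BigOperators ENNReal
open MeasureTheory Filter Topology Classical

namespace Pool.Agent.RL114.TaskP2R

theorem site_inj {e : Bool} {u v u' v' : ℤ} (h : site e u v = site e u' v') :
    u = u' ∧ v = v' := by
  unfold site at h
  cases e
  · simpa using h
  · have h' : v = v' ∧ u = u' := by simpa using h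
    exact ⟨h'.2, h'.1⟩

theorem AR_subset (r L m : ℕ) (ω : ℤ × ℤ → Bool) : AR r L ω m ⊆ Finset.range L := by
  cases m with
  | zero => unfold AR; exact @Finset.filter_subset ℕ _ (_) _
  | succ m => unfold AR; exact @Finset.filter_subset ℕ _ (_) _

theorem box_finite (N : ℤ) :
    {z : ℤ × ℤ | 0 ≤ z.1 ∧ 0 ≤ z.2 ∧ z.1 < N ∧ z.2 < N}.Finite := by
  refine ((Set.finite_Icc (0 : ℤ) N).prod (Set.finite_Icc (0 : ℤ) N)).subset ?_
  rintro ⟨a, b⟩ ⟨h1, h2, h3, h4⟩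
  simp only [Set.mem_prod, Set.mem_Icc] at *
  omega

theorem site_notMem {e : Bool} {u v N : ℤ} (h : N ≤ u) :
    site e u v ∉ {z : ℤ × ℤ | 0 ≤ z.1 ∧ 0 ≤ z.2 ∧ z.1 < N ∧ z.2 < N} := by
  rintro ⟨h1, h2, h3, h4⟩
  unfold site at h1 h2 h3 h4
  cases e <;> simp at h1 h2 h3 h4 <;> omega

theorem digits {r i i' b b' : ℕ} (hb : b < r) (hb' : b' < r)
    (h : (r : ℤ) * i + b = (r : ℤ) * i' + b') : i = i' ∧ b = b' := by
  have h1 : r * i + b = r * i' + b' := by exact_mod_cast h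
  have h2 : i = i' := by
    have e1 : (r * i + b) / r = i := by
      rw [Nat.mul_add_div (by omega), Nat.div_eq_of_lt hb, add_zero]
    have e2 : (r * i' + b') / r = i' := by
      rw [Nat.mul_add_div (by omega), Nat.div_eq_of_lt hb', add_zero]
    rw [← e1, ← e2, h1]
  subst h2
  exact ⟨rfl, by omega⟩

theorem main (hR : TaskRound) (hQ : TaskQ) (hB : TaskBoxR) : Pool.Agent.RL114.TaskP2R := by
  intro r j hr hj
  have hj8 : 8 ≤ j := le_trans (by
    calc 8 = 2 ^ 3 := by norm_num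
      _ ≤ 2 ^ r := Nat.pow_le_pow_right (by norm_num) hr) hj
  have hj0 : 1 ≤ j := by omega
  obtain ⟨L, hL⟩ : ∃ L : ℕ, L = j * 2 ^ ((r - 1) * 2 ^ j) := ⟨_, rfl⟩
  obtain ⟨p, hp⟩ : ∃ p : ℝ, p = (1 / 2) ^ (2 ^ j) := ⟨_, rfl⟩
  rw [← hL, ← hp]
  have hp0 : 0 ≤ p := by rw [hp]; positivity
  have hp1 : p ≤ 1 := by rw [hp]; exact pow_le_one₀ (by norm_num) (by norm_num)
  have hLR : (L : ℝ) = (j : ℝ) * 2 ^ ((r - 1) * 2 ^ j) := by rw [hL]; push_cast; ring
  have hjR : (2 : ℝ) ^ r ≤ j := by exact_mod_cast hj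
  have h2r : (0 : ℝ) < 2 ^ r := by positivity
  have hjp : (0 : ℝ) < j := lt_of_lt_of_le h2r hjR
  have h4 : (2 : ℝ) ≤ 2 ^ ((r - 1) * 2 ^ j) := by
    calc (2 : ℝ) = 2 ^ 1 := by norm_num
      _ ≤ 2 ^ ((r - 1) * 2 ^ j) := by
        refine pow_le_pow_right₀ (by norm_num) ?_
        exact Nat.mul_pos (by omega) (by positivity)
  have hLj : (2 : ℝ) * j ≤ L := by
    rw [hLR]
    nlinarith
  have hL2 : (2 : ℝ) * 2 ^ r ≤ L := by linarith
  have hLpos : (0 : ℝ) < L := by linarith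
  have hL1 : 1 ≤ L := by
    have : (0 : ℝ) < L := hLpos
    exact_mod_cast this
  obtain ⟨q, hq⟩ : ∃ q : ℝ, q = 1 - (1 - p) ^ (2 ^ (2 ^ j)) := ⟨_, rfl⟩
  have hpK : p * ((2 ^ (2 ^ j) : ℕ) : ℝ) = 1 := by
    rw [hp]
    push_cast
    rw [← mul_pow]
    norm_num
  have hqh : 1 / 2 ≤ q := by
    have := hQ p (2 ^ (2 ^ j)) hp0 hp1 hpK.le
    rw [hpK] at this
    rw [hq]
    exact this
  have hqr : 1 / 2 ^ r ≤ q ^ r := by
    calc (1 : ℝ) / 2 ^ r = (1 / 2) ^ r := by rw [one_div_pow]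
      _ ≤ q ^ r := pow_le_pow_left₀ (by norm_num) hqh r
  have hqr0 : 0 < q ^ r := lt_of_lt_of_le (by positivity) hqr
  have hLq : (L : ℝ) / 2 ^ r ≤ L * q ^ r := by
    calc (L : ℝ) / 2 ^ r = L * (1 / 2 ^ r) := by ring
      _ ≤ L * q ^ r := mul_le_mul_of_nonneg_left hqr hLpos.le
  have hLq2 : (2 : ℝ) ≤ L * q ^ r := by
    refine le_trans ?_ hLq
    rw [le_div_iff₀ h2r]
    exact hL2
  have key := hR (ℤ × ℤ) p L r (2 ^ (2 ^ j))
    {z : ℤ × ℤ | 0 ≤ z.1 ∧ 0 ≤ z.2 ∧ z.1 < (r : ℤ) * L * (j + 1) ∧ z.2 < (r : ℤ) * L * (j + 1)}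
    (fun ω => AR r L ω j)
    (fun i b s => site (dir (j + 1)) ((r : ℤ) * L * (j + 1) + (r : ℤ) * (i : ℤ) + (b : ℕ))
      ((r : ℤ) * L * j + (r : ℤ) * (s : ℤ) + ((r : ℤ) - 1))) 1 hp0 hp1 (box_finite _)
    (fun ω ω' h => hB r L j ω ω' hr hL1 h) (fun ω => AR_subset r L j ω)
    (by
      intro i i' b b' s s' hi hi' hb hb' hs hs' h
      obtain ⟨h1, h2⟩ := site_inj h
      have h3 : (r : ℤ) * (i : ℤ) + b = (r : ℤ) * (i' : ℤ) + b' := by linarith
      have h4 : (r : ℤ) * (s : ℤ) + ((0 : ℕ) : ℤ) = (r : ℤ) * (s' : ℤ) + ((0 : ℕ) : ℤ) := by linarith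
      obtain ⟨e1, e2⟩ := digits hb hb' h3
      exact ⟨e1, e2, (digits (by omega) (by omega) h4).1⟩)
    (by
      intro i b s hi hb hs
      refine site_notMem ?_
      have h1 : (0 : ℤ) ≤ (r : ℤ) * i := by positivity
      have h2 : (0 : ℤ) ≤ b := Int.natCast_nonneg _
      linarith)
    (by
      rw [← hq]
      linarith)
  rw [← hq] at key
  have hset : {ω : ℤ × ℤ → Bool | ¬ (AfR r L j ω).Nonempty} =
      {ω | ((AfR r L j ω).card : ℝ) < 1} := by
    ext ω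
    simp only [Set.mem_ofPred_eq, Finset.not_nonempty_iff_eq_empty]
    constructor
    · intro h
      rw [h]
      simp
    · intro h
      have h2 : (AfR r L j ω).card < 1 := by exact_mod_cast h
      rw [← Finset.card_eq_zero]
      omega
  rw [hset]
  have key' : (Pr (ℤ × ℤ) p).real {ω | ((AfR r L j ω).card : ℝ) < 1} ≤
      (Pr (ℤ × ℤ) p).real {ω | (AR r L ω j).card < 2 ^ 2 ^ j} + 4 / (L * q ^ r) := by
    unfold AfR
    convert key
  refine key'.trans ?_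
  have hfin : 4 / ((L : ℝ) * q ^ r) ≤ 2 ^ (r + 2) / j := by
    have h5 : (j : ℝ) / 2 ^ r ≤ L * q ^ r := by
      refine le_trans ?_ hLq
      exact div_le_div_of_nonneg_right (by linarith) h2r.le
    calc 4 / ((L : ℝ) * q ^ r) ≤ 4 / ((j : ℝ) / 2 ^ r) :=
          div_le_div_of_nonneg_left (by norm_num) (by positivity) h5
      _ = 2 ^ (r + 2) / j := by
          rw [pow_add]
          field_simp
          norm_num
  exact add_le_add le_rfl hfin

end Pool.Agent.RL114.TaskP2R
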