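import Pool.Agent.RL114.Stmts

set_option autoImplicit false

namespace Pool.Agent.RL114

theorem TaskQ_proof : TaskQ := by
  intro p K hp0 hp1 hpK
  have hx0 : 0 ≤ p * K := mul_nonneg hp0 (Nat.cast_nonneg K)
  have h1 : 1 + (K : ℝ) * p ≤ (1 + p) ^ K := one_add_mul_le_pow (by linarith) K
  have h2 : 0 ≤ (1 - p) ^ K := pow_nonneg (by linarith) K
  have h3 : (1 - p) ^ K * (1 + p) ^ K ≤ 1 := by
    rw [← mul_pow]
    exact pow_le_one₀ (by nlinarith) (by nlinarith)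
  have h4 : (1 - p) ^ K * (1 + (K : ℝ) * p) ≤ 1 :=
    le_trans (mul_le_mul_of_nonneg_left h1 h2) h3
  by_contra hcon
  push Not at hcon
  have h5 : 1 - p * K / 2 < (1 - p) ^ K := by linarith
  have h6 : 0 < 1 + (K : ℝ) * p := by nlinarith
  have h7 : (1 - p * K / 2) * (1 + (K : ℝ) * p) < 1 :=
    lt_of_lt_of_le (mul_lt_mul_of_pos_right h5 h6) h4
  nlinarith [mul_nonneg hx0 (sub_nonneg.2 hpK)]

end Pool.Agent.RL114

namespace Pool.Agent.RL114.TaskQ

theorem main : Pool.Agent.RL114.TaskQ := Pool.Agent.RL114.TaskQ_proof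

end Pool.Agent.RL114.TaskQ
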