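import Pool.Agent.RL114.Stmts

set_option autoImplicit false

open scoped BigOperators ENNReal
open MeasureTheory Filter Topology Classical

namespace Pool.Agent.RL114.TaskRound

/-- the event depends only on the coordinates in `U` -/
def Dep {ι : Type} (U : Finset ι) (P : Set (ι → Bool)) : Prop :=
  ∀ ω ω', (∀ u ∈ U, ω u = ω' u) → ω ∈ P → ω' ∈ P

/-- the set of restrictions -/
def res {ι : Type} (U : Finset ι) (P : Set (ι → Bool)) : Set (U → Bool) :=
  {g | ∃ ω ∈ P, ∀ i : U, g i = ω i}

lemma pre_res {ι : Type} {U : Finset ι} {P : Set (ι → Bool)} (h : Dep U P) :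
    P = (fun (ω : ι → Bool) (i : U) => ω i) ⁻¹' res U P := by
  ext ω
  constructor
  · intro hω
    exact ⟨ω, hω, fun i => rfl⟩
  · rintro ⟨ω', hω', h1⟩
    exact h ω' ω (fun u hu => (h1 ⟨u, hu⟩).symm) hω'

lemma meas_res {ι : Type} (U : Finset ι) (P : Set (ι → Bool)) : MeasurableSet (res U P) :=
  (Set.toFinite _).measurableSet

lemma meas_dep {ι : Type} {U : Finset ι} {P : Set (ι → Bool)} (h : Dep U P) :
    MeasurableSet P := by
  rw [pre_res h]
  exact (meas_res U P).preimage (measurable_pi_lambda _ fun i => measurable_pi_apply _)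

lemma indep_sets {ι : Type} (p : ℝ) {U W : Finset ι} (hUW : Disjoint U W)
    {P Q : Set (ι → Bool)} (hP : Dep U P) (hQ : Dep W Q) :
    (Pr ι p).real (P ∩ Q) = (Pr ι p).real P * (Pr ι p).real Q := by
  have hi : ProbabilityTheory.iIndepFun (fun i (ω : ι → Bool) => ω i) (Pr ι p) :=
    ProbabilityTheory.iIndepFun_infinitePi (X := fun _ => id) (fun i => measurable_id)
  have h2 := hi.indepFun_finset U W hUW (fun i => measurable_pi_apply i)
  have h3 := h2.measure_inter_preimage_eq_mul (res U P) (res W Q) (meas_res U P) (meas_res W Q)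
  rw [← pre_res hP, ← pre_res hQ] at h3
  rw [measureReal_def, h3, ENNReal.toReal_mul, measureReal_def, measureReal_def]

theorem main (hC : Pool.Agent.RL114.TaskCount) : Pool.Agent.RL114.TaskRound := by
  intro ι p L B K U A h κ hp0 hp1 hU hA hAL hinj hhU hκ
  set qK : ℝ := L * (1 - (1 - p) ^ K) ^ B with hqK
  have h1p : 0 ≤ 1 - p := by linarith
  have h1p' : 1 - p ≤ 1 := by linarith
  have hbase : 0 ≤ 1 - (1 - p) ^ K := by
    have := pow_le_one₀ (n := K) h1p h1p'
    linarith
  have hqK0 : 0 ≤ qK := by positivity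
  rcases hqK0.eq_or_lt with h0 | hpos
  · have hemp : {ω : ι → Bool | (((Finset.range L).filter fun i => ∀ b < B, ∃ s ∈ A ω,
      ω (h i b s) = true).card : ℝ) < κ} = ∅ := by
      ext ω
      simp only [Set.mem_ofPred_eq, Set.mem_empty_iff_false, iff_false, not_lt]
      refine le_trans (le_trans hκ ?_) (Nat.cast_nonneg _)
      rw [← h0]
      simp
    rw [hemp, ← h0]
    simp only [measureReal_empty, div_zero, add_zero]
    exact measureReal_nonneg
  let E : Finset ℕ → Set (ι → Bool) := fun S =>
    {ω | (((Finset.range L).filter fun i => ∀ b < B, ∃ s ∈ S, ω (h i b s) = true).card : ℝ) < κ}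
  let F : Finset (Finset ℕ) := (Finset.range L).powerset.filter fun S => K ≤ S.card
  let W : Finset ι := ((Finset.range L) ×ˢ ((Finset.range B) ×ˢ (Finset.range L))).image
    fun x => h x.1 x.2.1 x.2.2
  have hUW : Disjoint hU.toFinset W := by
    rw [Finset.disjoint_right]
    intro a ha
    simp only [W, Finset.mem_image, Finset.mem_product, Finset.mem_range] at ha
    obtain ⟨x, ⟨h1, h2, h3⟩, rfl⟩ := ha
    rw [Set.Finite.mem_toFinset]
    exact hhU _ _ _ h1 h2 h3
  have hdA : ∀ S : Finset ℕ, Dep hU.toFinset {ω | A ω = S} := by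
    intro S ω ω' hω h1
    have : A ω = A ω' := hA ω ω' fun u hu => hω u (by simpa using hu)
    show A ω' = S
    rw [← this]
    exact h1
  have hdE : ∀ S ∈ F, Dep W (E S) := by
    intro S hS ω ω' hω h1
    have hSL : S ⊆ Finset.range L := by
      simp only [F, Finset.mem_filter, Finset.mem_powerset] at hS
      exact hS.1
    have h2 : ((Finset.range L).filter fun i => ∀ b < B, ∃ s ∈ S, ω' (h i b s) = true) =
        ((Finset.range L).filter fun i => ∀ b < B, ∃ s ∈ S, ω (h i b s) = true) := by
      ext i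
      simp only [Finset.mem_filter, Finset.mem_range, and_congr_right_iff]
      intro hi
      refine forall_congr' fun b => forall_congr' fun hb => exists_congr fun s =>
        and_congr_right fun hs => ?_
      rw [hω (h i b s)]
      simp only [W, Finset.mem_image, Finset.mem_product, Finset.mem_range]
      exact ⟨(i, b, s), ⟨hi, hb, by simpa using hSL hs⟩, rfl⟩
    show _ < κ
    rw [h2]
    exact h1
  have hE : ∀ S ∈ F, (Pr ι p).real (E S) ≤ 4 / qK := by
    intro S hS
    have hS' : S ⊆ Finset.range L ∧ K ≤ S.card := by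
      simp only [F, Finset.mem_filter, Finset.mem_powerset] at hS
      exact hS
    have hpw : (1 - p) ^ S.card ≤ (1 - p) ^ K := pow_le_pow_of_le_one h1p h1p' hS'.2
    have hq : qK ≤ L * (1 - (1 - p) ^ S.card) ^ B := by
      rw [hqK]
      refine mul_le_mul_of_nonneg_left ?_ (Nat.cast_nonneg _)
      exact pow_le_pow_left₀ hbase (by linarith) _
    have h3 := hC ι p L B 1 S (fun i b s _ => h i b s) κ hp0 hp1 le_rfl
      (fun i i' b b' s s' c c' hi hi' hb hb' hs hs' hc hc' he => by
        obtain ⟨e1, e2, e3⟩ := hinj i i' b b' s s' hi hi' hb hb'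
          (by simpa using hS'.1 hs) (by simpa using hS'.1 hs') he
        exact ⟨e1, e2, e3, by omega⟩)
      (by rw [pow_one]; linarith)
    rw [pow_one] at h3
    have h4 : E S = {ω : ι → Bool | (((Finset.range L).filter fun i => ∀ b < B, ∃ s ∈ S,
        ∀ c < 1, ω (h i b s) = true).card : ℝ) < κ} := by
      ext ω
      have h5 : ((Finset.range L).filter fun i => ∀ b < B, ∃ s ∈ S, ω (h i b s) = true) =
          ((Finset.range L).filter fun i => ∀ b < B, ∃ s ∈ S, ∀ c < 1, ω (h i b s) = true) := by
        ext i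
        simp only [Finset.mem_filter, Finset.mem_range, and_congr_right_iff]
        intro hi
        refine forall_congr' fun b => forall_congr' fun hb => exists_congr fun s =>
          and_congr_right fun hs => ⟨fun h _ _ => h, fun h => h 0 one_pos⟩
      show _ < κ ↔ _ < κ
      rw [h5]
    rw [h4]
    refine h3.trans ?_
    exact div_le_div_of_nonneg_left (by norm_num) hpos hq
  have hsub : {ω : ι → Bool | (((Finset.range L).filter fun i => ∀ b < B, ∃ s ∈ A ω,
      ω (h i b s) = true).card : ℝ) < κ} ⊆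
      {ω | (A ω).card < K} ∪ ⋃ S ∈ F, ({ω | A ω = S} ∩ E S) := by
    intro ω hω
    by_cases hc : (A ω).card < K
    · exact Or.inl hc
    · right
      simp only [Set.mem_iUnion]
      refine ⟨A ω, ?_, rfl, hω⟩
      simp only [F, Finset.mem_filter, Finset.mem_powerset]
      exact ⟨hAL ω, not_lt.1 hc⟩
  have hsum : ∑ S ∈ F, (Pr ι p).real {ω | A ω = S} ≤ 1 := by
    rw [← measureReal_biUnion_finset]
    · exact measureReal_le_one
    · intro S _ S' _ hne
      rw [Function.onFun, Set.disjoint_left]
      intro ω h1 h2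
      exact hne (h1.symm.trans h2)
    · intro S _
      exact meas_dep (hdA S)
  calc (Pr ι p).real {ω : ι → Bool | (((Finset.range L).filter fun i => ∀ b < B, ∃ s ∈ A ω,
      ω (h i b s) = true).card : ℝ) < κ}
      ≤ (Pr ι p).real ({ω | (A ω).card < K} ∪ ⋃ S ∈ F, ({ω | A ω = S} ∩ E S)) :=
        measureReal_mono hsub
    _ ≤ (Pr ι p).real {ω | (A ω).card < K} + (Pr ι p).real (⋃ S ∈ F, ({ω | A ω = S} ∩ E S)) :=
        measureReal_union_le _ _
    _ ≤ (Pr ι p).real {ω | (A ω).card < K} + 4 / qK := by
        refine add_le_add le_rfl ?_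
        calc (Pr ι p).real (⋃ S ∈ F, ({ω | A ω = S} ∩ E S))
            ≤ ∑ S ∈ F, (Pr ι p).real ({ω | A ω = S} ∩ E S) := measureReal_biUnion_finset_le _ _
          _ = ∑ S ∈ F, (Pr ι p).real {ω | A ω = S} * (Pr ι p).real (E S) :=
              Finset.sum_congr rfl fun S hS => indep_sets p hUW (hdA S) (hdE S hS)
          _ ≤ ∑ S ∈ F, (Pr ι p).real {ω | A ω = S} * (4 / qK) :=
              Finset.sum_le_sum fun S hS =>
                mul_le_mul_of_nonneg_left (hE S hS) measureReal_nonneg
          _ = (∑ S ∈ F, (Pr ι p).real {ω | A ω = S}) * (4 / qK) := by rw [Finset.sum_mul]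
          _ ≤ 1 * (4 / qK) := mul_le_mul_of_nonneg_right hsum (by positivity)
          _ = 4 / qK := one_mul _

end Pool.Agent.RL114.TaskRound
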