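import Pool.Agent.RL114.Stmts

set_option autoImplicit false

namespace Pool.Agent.RL114

theorem taskSum (h0 : TaskP0) (h1 : TaskP1) (h2 : TaskP2) : TaskSum := by
  intro j hj
  have hj0 : (0 : ℝ) < j := by
    have : 0 < j := by omega
    exact_mod_cast this
  -- the induction
  have key : ∀ m : ℕ, m ≤ j →
      (Pr (ℤ × ℤ) ((1 / 2) ^ (2 ^ j))).real
        {ω | (A (j * 4 ^ (2 ^ j)) ω m).card < 2 ^ (2 ^ m)} ≤ 16 / j * (2 - (1 / 2) ^ m) := by
    intro m
    induction m with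
    | zero =>
      intro _
      have h := h0 j hj
      norm_num at h ⊢
      linarith
    | succ m ih =>
      intro hm
      have hA := ih (by omega)
      have hB := h1 j m hj (by omega)
      have hlt : m + 1 ≤ 2 ^ m := Nat.lt_two_pow_self
      have h3 : (2 : ℝ) ^ (m + 1) ≤ 2 ^ (2 ^ m) := pow_le_pow_right₀ (by norm_num) hlt
      have h4 : (1 : ℝ) ≤ 2 ^ (2 ^ m) := one_le_pow₀ (by norm_num)
      have h5 : (2 : ℝ) ^ (m + 1) ≤ (2 ^ (2 ^ m)) ^ 2 := by nlinarith
      have h6 : (16 : ℝ) / (j * (2 ^ (2 ^ m)) ^ 2) ≤ 16 / j * (1 / 2) ^ (m + 1) := by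
        have e : (16 : ℝ) / j * (1 / 2) ^ (m + 1) = 16 / (j * 2 ^ (m + 1)) := by
          rw [one_div, inv_pow]
          field_simp
        rw [e]
        apply div_le_div_of_nonneg_left (by norm_num) (by positivity)
        exact mul_le_mul_of_nonneg_left h5 hj0.le
      have e2 : (16 : ℝ) / j * (2 - (1 / 2) ^ (m + 1)) =
          16 / j * (2 - (1 / 2) ^ m) + 16 / j * (1 / 2) ^ (m + 1) := by ring
      rw [e2]
      linarith
  have hF := h2 j hj
  have hK := key j le_rfl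
  have h7 : (16 : ℝ) / j * (2 - (1 / 2) ^ j) ≤ 32 / j := by
    have : (0 : ℝ) ≤ (1 / 2) ^ j := by positivity
    have h8 : (32 : ℝ) / j = 16 / j * 2 := by ring
    rw [h8]
    exact mul_le_mul_of_nonneg_left (by linarith) (by positivity)
  have h9 : (32 : ℝ) / (j * 4 ^ (2 ^ j)) ≤ 32 / j := by
    apply div_le_div_of_nonneg_left (by norm_num) hj0
    have : (1 : ℝ) ≤ 4 ^ (2 ^ j) := one_le_pow₀ (by norm_num)
    nlinarith
  have e3 : (64 : ℝ) / j = 32 / j + 32 / j := by ring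
  rw [e3]
  linarith

end Pool.Agent.RL114
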