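import Pool.Agent.RL114.Stmts

/-! # `TaskTime` -/

set_option autoImplicit false

open scoped BigOperators ENNReal
open MeasureTheory Filter Topology Classical

namespace Pool.Agent.RL114.TaskTime

theorem part1 : Tendsto (fun p : ℝ => (p⁻¹ ^ 2 * Real.sqrt (Real.log (1 / p))) / (p⁻¹ ^ 2 * Real.log (1 / p)))
    (𝓝[>] 0) (𝓝 0) := by
  have h1 : Tendsto (fun p : ℝ => Real.log (1 / p)) (𝓝[>] 0) atTop := by
    have := Real.tendsto_log_atTop.comp (tendsto_inv_nhdsGT_zero (𝕜 := ℝ))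
    refine this.congr (fun p => ?_)
    simp
  have h2 : Tendsto (fun p : ℝ => Real.sqrt (Real.log (1 / p))) (𝓝[>] 0) atTop :=
    Real.tendsto_sqrt_atTop.comp h1
  have h3 := tendsto_inv_atTop_zero.comp h2
  refine h3.congr' ?_
  filter_upwards [h1.eventually_gt_atTop 0, self_mem_nhdsWithin] with p hp hp0
  have hp0' : (0 : ℝ) < p := hp0
  have hs : 0 < Real.sqrt (Real.log (1 / p)) := Real.sqrt_pos.2 hp
  have e : Real.log (1 / p) = Real.sqrt (Real.log (1 / p)) * Real.sqrt (Real.log (1 / p)) :=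
    (Real.mul_self_sqrt hp.le).symm
  have hq : (0 : ℝ) < p⁻¹ ^ 2 := by positivity
  rw [mul_div_mul_left _ _ hq.ne']
  simp only [Function.comp_apply]
  rw [inv_eq_one_div, div_eq_div_iff hs.ne' hp.ne', one_mul]
  exact e

theorem part2 : ∀ᶠ j : ℕ in atTop, (4 * ((j * 4 ^ (2 ^ j) : ℕ) : ℝ) * (j + 3) * (j + 3)) ≤
    (((1 / 2 : ℝ) ^ (2 ^ j))⁻¹ ^ 2 * Real.sqrt (Real.log (1 / (1 / 2 : ℝ) ^ (2 ^ j)))) := by
  have hlog : (0 : ℝ) < Real.log 2 := Real.log_pos (by norm_num)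
  have ht := tendsto_pow_const_div_const_pow_of_one_lt 6 (show (1 : ℝ) < 2 by norm_num)
  have hev : ∀ᶠ j : ℕ in atTop, (j : ℝ) ^ 6 / 2 ^ j < Real.log 2 / 4096 :=
    ht.eventually_lt_const (by positivity)
  filter_upwards [hev, eventually_ge_atTop 1] with j hj hj1
  have hj1' : (1 : ℝ) ≤ j := by exact_mod_cast hj1
  have e1 : ((1 / 2 : ℝ) ^ (2 ^ j))⁻¹ ^ 2 = 4 ^ (2 ^ j) := by
    have e0 : ((1 / 2 : ℝ) ^ (2 ^ j))⁻¹ = 2 ^ (2 ^ j) := by
      rw [one_div, inv_pow, inv_inv]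
    rw [e0, ← pow_mul, mul_comm, pow_mul]
    norm_num
  have e2 : Real.log (1 / (1 / 2 : ℝ) ^ (2 ^ j)) = 2 ^ j * Real.log 2 := by
    rw [one_div, one_div, inv_pow, inv_inv, Real.log_pow]
    push_cast
    ring
  rw [e1, e2]
  push_cast
  have h2 : (j : ℝ) ^ 6 * 4096 < 2 ^ j * Real.log 2 := by
    have hp : (0 : ℝ) < 2 ^ j := by positivity
    rw [div_lt_div_iff₀ hp (by norm_num)] at hj
    linarith
  have h3 : 4 * (j : ℝ) * (j + 3) * (j + 3) ≤ 64 * j ^ 3 := by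
    have h4 : (j : ℝ) + 3 ≤ 4 * j := by linarith
    have h5 : ((j : ℝ) + 3) * (j + 3) ≤ (4 * j) * (4 * j) := by
      apply mul_le_mul h4 h4 (by linarith) (by linarith)
    nlinarith
  have h6 : 4 * (j : ℝ) * (j + 3) * (j + 3) ≤ Real.sqrt (2 ^ j * Real.log 2) := by
    apply Real.le_sqrt_of_sq_le
    have h7 : (0 : ℝ) ≤ 4 * (j : ℝ) * (j + 3) * (j + 3) := by positivity
    calc (4 * (j : ℝ) * (j + 3) * (j + 3)) ^ 2 ≤ (64 * j ^ 3) ^ 2 := pow_le_pow_left₀ h7 h3 2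
      _ = j ^ 6 * 4096 := by ring
      _ ≤ _ := h2.le
  have h8 : (0 : ℝ) < 4 ^ (2 ^ j) := by positivity
  calc 4 * ((j : ℝ) * 4 ^ 2 ^ j) * (j + 3) * (j + 3) = 4 ^ 2 ^ j * (4 * (j : ℝ) * (j + 3) * (j + 3)) := by ring
    _ ≤ _ := mul_le_mul_of_nonneg_left h6 h8.le

theorem main : Pool.Agent.RL114.TaskTime := ⟨part1, part2⟩

end Pool.Agent.RL114.TaskTime
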